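import Pool.Agent.Lib.MP_de6bc3_an.Oct

set_option autoImplicit false

open scoped Quaternion

namespace Pool.Agent.Lib.MP_de6bc3_an

namespace Oct

lemma conj_zero : conj 0 = 0 := by simp [conj]

lemma mul_zero' (x : Oct) : mul x 0 = 0 := by
  have := mul_smul 0 x 0
  simpa using this

lemma zero_mul' (x : Oct) : mul 0 x = 0 := by
  have := smul_mul 0 0 x
  simpa using this

lemma conj_ofReal (r : ℝ) : conj (ofReal r) = ofReal r := by
  apply ext' <;> simp [conj_c0, conj_c1, conj_c2, conj_c3, conj_c4, conj_c5, conj_c6, conj_c7,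
    ofReal_c0, ofReal_c1, ofReal_c2, ofReal_c3, ofReal_c4, ofReal_c5, ofReal_c6, ofReal_c7]

lemma ofReal_re_of_conj_eq (x : Oct) (h : x = conj x) : x = ofReal (re x) := by
  have h1 := congrArg c1 h
  have h2 := congrArg c2 h
  have h3 := congrArg c3 h
  have h4 := congrArg c4 h
  have h5 := congrArg c5 h
  have h6 := congrArg c6 h
  have h7 := congrArg c7 h
  rw [conj_c1] at h1
  rw [conj_c2] at h2
  rw [conj_c3] at h3
  rw [conj_c4] at h4
  rw [conj_c5] at h5
  rw [conj_c6] at h6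
  rw [conj_c7] at h7
  apply ext'
  · rw [ofReal_c0, re_eq]
  · rw [ofReal_c1]; linarith
  · rw [ofReal_c2]; linarith
  · rw [ofReal_c3]; linarith
  · rw [ofReal_c4]; linarith
  · rw [ofReal_c5]; linarith
  · rw [ofReal_c6]; linarith
  · rw [ofReal_c7]; linarith

/-- `conj` as a linear map. -/
noncomputable def conjL : Oct →ₗ[ℝ] Oct where
  toFun := conj
  map_add' := conj_add
  map_smul' := conj_smul

/-- `re` as a linear map. -/
noncomputable def reL : Oct →ₗ[ℝ] ℝ where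
  toFun := re
  map_add' := fun _ _ => rfl
  map_smul' := fun _ _ => rfl

/-- multiplication as a bilinear map. -/
noncomputable def mulL : Oct →ₗ[ℝ] Oct →ₗ[ℝ] Oct :=
  LinearMap.mk₂ ℝ mul add_mul smul_mul mul_add mul_smul

lemma mulL_apply (x y : Oct) : mulL x y = mul x y := rfl

lemma conj_sum {ι : Type*} (s : Finset ι) (f : ι → Oct) :
    conj (∑ i ∈ s, f i) = ∑ i ∈ s, conj (f i) := map_sum conjL f s

lemma re_sum {ι : Type*} (s : Finset ι) (f : ι → Oct) :
    re (∑ i ∈ s, f i) = ∑ i ∈ s, re (f i) := map_sum reL f s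

lemma mul_sum {ι : Type*} (s : Finset ι) (x : Oct) (f : ι → Oct) :
    mul x (∑ i ∈ s, f i) = ∑ i ∈ s, mul x (f i) := map_sum (mulL x) f s

lemma sum_mul {ι : Type*} (s : Finset ι) (x : Oct) (f : ι → Oct) :
    mul (∑ i ∈ s, f i) x = ∑ i ∈ s, mul (f i) x := map_sum (mulL.flip x) f s

lemma re_add (x y : Oct) : re (x + y) = re x + re y := rfl
lemma re_smul (r : ℝ) (x : Oct) : re (r • x) = r * re x := rfl
lemma re_ofReal (r : ℝ) : re (ofReal r) = r := ofReal_c0 r

/-- `ip` as a bilinear map -/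
noncomputable def ipL : Oct →ₗ[ℝ] Oct →ₗ[ℝ] ℝ :=
  LinearMap.mk₂ ℝ ip ip_add_left ip_smul_left
    (fun x y z => by rw [ip_comm, ip_add_left, ip_comm y, ip_comm z])
    (fun r x y => by rw [ip_comm, ip_smul_left, ip_comm y]; rfl)

lemma ip_sum {ι : Type*} (s : Finset ι) (x : Oct) (f : ι → Oct) :
    ip x (∑ i ∈ s, f i) = ∑ i ∈ s, ip x (f i) := map_sum (ipL x) f s

lemma sum_ip {ι : Type*} (s : Finset ι) (x : Oct) (f : ι → Oct) :
    ip (∑ i ∈ s, f i) x = ∑ i ∈ s, ip (f i) x := map_sum (ipL.flip x) f s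

lemma ip_add_right (x y z : Oct) : ip x (y + z) = ip x y + ip x z := map_add (ipL x) y z
lemma ip_smul_right (r : ℝ) (x y : Oct) : ip x (r • y) = r * ip x y := map_smul (ipL x) r y

lemma nsq_nonneg (x : Oct) : 0 ≤ nsq x := by
  simp only [nsq, ip]
  nlinarith [sq_nonneg (c0 x), sq_nonneg (c1 x), sq_nonneg (c2 x), sq_nonneg (c3 x),
    sq_nonneg (c4 x), sq_nonneg (c5 x), sq_nonneg (c6 x), sq_nonneg (c7 x)]

end Oct

open Oct

/-- `3 × 3` matrices over the octonions. -/
abbrev Mat : Type := Fin 3 → Fin 3 → Oct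

/-- Matrix multiplication. -/
noncomputable def mmul (X Y : Mat) : Mat := fun i j => ∑ k, Oct.mul (X i k) (Y k j)

/-- The Hermitian `3 × 3` matrices over the octonions, as a real subspace. -/
noncomputable def albSub : Submodule ℝ Mat where
  carrier := {X | ∀ i j, X j i = Oct.conj (X i j)}
  add_mem' := by
    intro X Y hX hY i j
    rw [Pi.add_apply, Pi.add_apply, Pi.add_apply, Pi.add_apply, hX i j, hY i j, conj_add]
  zero_mem' := by
    intro i j
    simp [Oct.conj_zero]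
  smul_mem' := by
    intro r X hX i j
    rw [Pi.smul_apply, Pi.smul_apply, Pi.smul_apply, Pi.smul_apply, hX i j, conj_smul]

/-- `H₃(𝕆)`: the Hermitian `3 × 3` matrices over the octonions. -/
def Alb : Type := {X : Mat // ∀ i j, X j i = Oct.conj (X i j)}

noncomputable instance instNormedAddCommGroupAlb : NormedAddCommGroup Alb :=
  inferInstanceAs (NormedAddCommGroup albSub)

noncomputable instance instNormedSpaceAlb : NormedSpace ℝ Alb :=
  inferInstanceAs (NormedSpace ℝ albSub)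

lemma herm (X : Alb) (i j : Fin 3) : X.1 j i = Oct.conj (X.1 i j) := X.2 i j

/-- The Jordan product `X ∘ Y = (X Y + Y X) / 2`. -/
noncomputable def jmul (X Y : Alb) : Alb :=
  ⟨(1 / 2 : ℝ) • (mmul X.1 Y.1 + mmul Y.1 X.1), by
    intro i j
    simp only [Pi.smul_apply, Pi.add_apply, mmul, conj_smul, conj_add, conj_sum, conj_mul]
    rw [add_comm]
    congr 2 <;>
    · refine Finset.sum_congr rfl fun k _ => ?_
      rw [← herm, ← herm]⟩

lemma jmul_apply (X Y : Alb) (i j : Fin 3) :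
    (jmul X Y).1 i j = (1 / 2 : ℝ) • (∑ k, mul (X.1 i k) (Y.1 k j) + ∑ k, mul (Y.1 i k) (X.1 k j)) :=
  rfl

/-- The trace of a Hermitian matrix. -/
noncomputable def tr (X : Alb) : ℝ := ∑ i, re (X.1 i i)

lemma jmul_comm (X Y : Alb) : jmul X Y = jmul Y X := by
  apply Subtype.ext
  ext1 i; ext1 j
  rw [jmul_apply, jmul_apply, add_comm]

lemma jmul_add (X Y Z : Alb) : jmul X (Y + Z) = jmul X Y + jmul X Z := by
  apply Subtype.ext
  ext1 i; ext1 j
  have h : (jmul X Y + jmul X Z).1 i j = (jmul X Y).1 i j + (jmul X Z).1 i j := rfl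
  have h2 : ∀ k l, (Y + Z).1 k l = Y.1 k l + Z.1 k l := fun _ _ => rfl
  rw [h, jmul_apply, jmul_apply, jmul_apply]
  simp only [h2, mul_add, add_mul, Finset.sum_add_distrib]
  module

lemma jmul_smul (r : ℝ) (X Y : Alb) : jmul X (r • Y) = r • jmul X Y := by
  apply Subtype.ext
  ext1 i; ext1 j
  have h : (r • jmul X Y).1 i j = r • (jmul X Y).1 i j := rfl
  have h2 : ∀ k l, (r • Y).1 k l = r • Y.1 k l := fun _ _ => rfl
  rw [h, jmul_apply, jmul_apply]
  simp only [h2, mul_smul, smul_mul, ← Finset.smul_sum]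
  module

lemma add_jmul (X Y Z : Alb) : jmul (X + Y) Z = jmul X Z + jmul Y Z := by
  rw [jmul_comm, jmul_add, jmul_comm Z, jmul_comm Z]

lemma smul_jmul (r : ℝ) (X Y : Alb) : jmul (r • X) Y = r • jmul X Y := by
  rw [jmul_comm, jmul_smul, jmul_comm]

/-- The Jordan product as a bilinear map. -/
noncomputable def jmulL : Alb →ₗ[ℝ] Alb →ₗ[ℝ] Alb :=
  LinearMap.mk₂ ℝ jmul add_jmul smul_jmul jmul_add jmul_smul

lemma jmulL_apply (X Y : Alb) : jmulL X Y = jmul X Y := rfl

/-- The trace as a linear map. -/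
noncomputable def trL : Alb →ₗ[ℝ] ℝ where
  toFun := tr
  map_add' := fun X Y => by
    unfold tr
    rw [← Finset.sum_add_distrib]
    rfl
  map_smul' := fun r X => by
    unfold tr
    rw [RingHom.id_apply, smul_eq_mul, Finset.mul_sum]
    rfl

lemma tr_add (X Y : Alb) : tr (X + Y) = tr X + tr Y := map_add trL X Y
lemma tr_smul (r : ℝ) (X : Alb) : tr (r • X) = r * tr X := map_smul trL r X
lemma tr_sub (X Y : Alb) : tr (X - Y) = tr X - tr Y := map_sub trL X Y

/-- `T(X,Y,Z) = ∑ Re((X_ij Y_jk) Z_ki)`. -/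
noncomputable def T3 (X Y Z : Alb) : ℝ :=
  ∑ i, ∑ j, ∑ k, re (mul (mul (X.1 i j) (Y.1 j k)) (Z.1 k i))

lemma T3_cyc (X Y Z : Alb) : T3 X Y Z = T3 Y Z X := by
  unfold T3
  rw [Finset.sum_comm]
  refine Finset.sum_congr rfl fun j _ => ?_
  rw [Finset.sum_comm]
  refine Finset.sum_congr rfl fun k _ => ?_
  refine Finset.sum_congr rfl fun i _ => ?_
  rw [re_mul_assoc, re_mul_comm]

lemma tr_jmul (X Y : Alb) : tr (jmul X Y) = ∑ i, ∑ j, ip (X.1 i j) (Y.1 i j) := by
  unfold tr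
  refine Finset.sum_congr rfl fun i _ => ?_
  rw [jmul_apply, re_smul, re_add, re_sum, re_sum, ← Finset.sum_add_distrib, Finset.mul_sum]
  refine Finset.sum_congr rfl fun j _ => ?_
  rw [herm Y i j, herm X i j, re_mul_conj, re_mul_conj, ip_comm (Y.1 i j)]
  ring

lemma tr_jmul_jmul (X Y Z : Alb) : tr (jmul X (jmul Y Z)) = (1 / 2) * (T3 X Y Z + T3 X Z Y) := by
  rw [tr_jmul]
  unfold T3
  rw [← Finset.sum_add_distrib, Finset.mul_sum]
  refine Finset.sum_congr rfl fun i _ => ?_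
  rw [← Finset.sum_add_distrib, Finset.mul_sum]
  refine Finset.sum_congr rfl fun j _ => ?_
  have h1 : ip (X.1 i j) ((jmul Y Z).1 i j) = re (mul (X.1 i j) ((jmul Y Z).1 j i)) := by
    rw [herm (jmul Y Z) i j, re_mul_conj]
  rw [h1, jmul_apply, mul_smul, re_smul, mul_add, mul_sum, mul_sum, re_add, re_sum, re_sum]
  simp only [re_mul_assoc]

lemma tr_assoc (X Y Z : Alb) : tr (jmul X (jmul Y Z)) = tr (jmul (jmul X Y) Z) := by
  rw [jmul_comm (jmul X Y) Z, tr_jmul_jmul, tr_jmul_jmul]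
  rw [T3_cyc Z X Y, T3_cyc Z Y X, T3_cyc Y X Z]

/-- Diagonal matrices. -/
noncomputable def dg (l : Fin 3 → ℝ) : Alb :=
  ⟨fun i j => if i = j then ofReal (l i) else 0, by
    intro i j
    by_cases h : i = j
    · subst h; simp [conj_ofReal]
    · simp [h, Ne.symm h, conj_zero]⟩

lemma dg_apply (l : Fin 3 → ℝ) (i j : Fin 3) : (dg l).1 i j = if i = j then ofReal (l i) else 0 :=
  rfl

/-- The unit of `H₃(𝕆)`. -/
noncomputable def one : Alb := dg fun _ => 1

lemma jmul_dg_apply (X : Alb) (l : Fin 3 → ℝ) (i j : Fin 3) :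
    (jmul X (dg l)).1 i j = ((l i + l j) / 2) • X.1 i j := by
  rw [jmul_apply]
  have h1 : ∑ k, mul (X.1 i k) ((dg l).1 k j) = l j • X.1 i j := by
    rw [Finset.sum_eq_single j]
    · rw [dg_apply, if_pos rfl, mul_ofReal]
    · intro k _ hk
      rw [dg_apply, if_neg hk, mul_zero']
    · simp
  have h2 : ∑ k, mul ((dg l).1 i k) (X.1 k j) = l i • X.1 i j := by
    rw [Finset.sum_eq_single i]
    · rw [dg_apply, if_pos rfl, ofReal_mul]
    · intro k _ hk
      rw [dg_apply, if_neg (Ne.symm hk), zero_mul']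
    · simp
  rw [h1, h2]
  module

lemma jmul_one (X : Alb) : jmul X one = X := by
  apply Subtype.ext
  ext1 i; ext1 j
  rw [one, jmul_dg_apply]
  norm_num

lemma tr_jmul_one (X : Alb) : tr (jmul X one) = tr X := by rw [jmul_one]

lemma jmul_dg_dg (l m : Fin 3 → ℝ) : jmul (dg l) (dg m) = dg (fun i => l i * m i) := by
  apply Subtype.ext
  ext1 i; ext1 j
  rw [jmul_dg_apply, dg_apply, dg_apply]
  split_ifs with h
  · subst h
    apply ext' <;> simp [smul_c0, smul_c1, smul_c2, smul_c3, smul_c4, smul_c5, smul_c6, smul_c7,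
      ofReal_c0, ofReal_c1, ofReal_c2, ofReal_c3, ofReal_c4, ofReal_c5, ofReal_c6, ofReal_c7]
    ring
  · simp

lemma tr_dg (l : Fin 3 → ℝ) : tr (dg l) = ∑ i, l i := by
  unfold tr
  refine Finset.sum_congr rfl fun i _ => ?_
  rw [dg_apply, if_pos rfl, re_ofReal]

lemma diag_real (X : Alb) (i : Fin 3) : X.1 i i = ofReal (re (X.1 i i)) :=
  ofReal_re_of_conj_eq _ (herm X i i)

end Pool.Agent.Lib.MP_de6bc3_an
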