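import Pool.Agent.Lib.MP_de6bc3_an.Albert

set_option autoImplicit false

open scoped Quaternion

namespace Pool.Agent.Lib.MP_de6bc3_an

open Oct

/-- Unital Jordan endomorphisms of `H₃(𝕆)` (they are automatically automorphisms). -/
def IsAut (T : Alb →ₗ[ℝ] Alb) : Prop :=
  (∀ X Y, T (jmul X Y) = jmul (T X) (T Y)) ∧ T one = one

lemma IsAut.comp {S T : Alb →ₗ[ℝ] Alb} (hS : IsAut S) (hT : IsAut T) : IsAut (S.comp T) := by
  refine ⟨fun X Y => ?_, ?_⟩
  · simp only [LinearMap.comp_apply, hT.1, hS.1]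
  · simp only [LinearMap.comp_apply, hT.2, hS.2]

lemma IsAut.id : IsAut LinearMap.id := ⟨fun _ _ => rfl, rfl⟩

/-- It suffices to check six entries. -/
lemma ext6 {X Y : Alb} (h0 : re (X.1 0 0) = re (Y.1 0 0)) (h1 : re (X.1 1 1) = re (Y.1 1 1))
    (h2 : re (X.1 2 2) = re (Y.1 2 2)) (h3 : X.1 0 1 = Y.1 0 1) (h4 : X.1 1 2 = Y.1 1 2)
    (h5 : X.1 2 0 = Y.1 2 0) : X = Y := by
  apply Subtype.ext
  ext1 i; ext1 j
  fin_cases i <;> fin_cases j <;> simp only [Fin.zero_eta, Fin.mk_one, Fin.reduceFinMk]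
  · rw [diag_real X, diag_real Y, h0]
  · exact h3
  · rw [herm X 2 0, herm Y 2 0, h5]
  · rw [herm X 0 1, herm Y 0 1, h3]
  · rw [diag_real X, diag_real Y, h1]
  · exact h4
  · exact h5
  · rw [herm X 1 2, herm Y 1 2, h4]
  · rw [diag_real X, diag_real Y, h2]

lemma re_jmul_diag (X Y : Alb) (i : Fin 3) :
    re ((jmul X Y).1 i i) = ∑ j, ip (X.1 i j) (Y.1 i j) := by
  rw [jmul_apply, re_smul, re_add, re_sum, re_sum, ← Finset.sum_add_distrib, Finset.mul_sum]
  refine Finset.sum_congr rfl fun j _ => ?_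
  rw [herm Y i j, herm X i j, re_mul_conj, re_mul_conj, ip_comm (Y.1 i j)]
  ring

/-! ### Uniqueness of the trace -/

/-- Diagonal idempotents. -/
noncomputable def e (i : Fin 3) : Alb := dg (Pi.single i 1)

/-- Off-diagonal elements. -/
noncomputable def od (i j : Fin 3) (h : i ≠ j) (x : Oct) : Alb :=
  ⟨fun k l => if k = i ∧ l = j then x else if k = j ∧ l = i then conj x else 0, by
    intro k l
    by_cases h1 : k = i ∧ l = j
    · obtain ⟨rfl, rfl⟩ := h1
      simp [h]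
    · by_cases h2 : k = j ∧ l = i
      · obtain ⟨rfl, rfl⟩ := h2
        simp [h1, conj_conj]
      · have h3 : ¬ (l = i ∧ k = j) := fun h => h2 ⟨h.2, h.1⟩
        have h4 : ¬ (l = j ∧ k = i) := fun h => h1 ⟨h.2, h.1⟩
        simp [h1, h2, h3, h4, conj_zero]⟩

lemma od_apply (i j : Fin 3) (h : i ≠ j) (x : Oct) (k l : Fin 3) :
    (od i j h x).1 k l = if k = i ∧ l = j then x else if k = j ∧ l = i then conj x else 0 := rfl

lemma od_jmul_e (i j : Fin 3) (h : i ≠ j) (x : Oct) :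
    jmul (od i j h x) (e i) = (1 / 2 : ℝ) • od i j h x := by
  apply Subtype.ext
  ext1 k; ext1 l
  have h0 : ((1 / 2 : ℝ) • od i j h x).1 k l = (1 / 2 : ℝ) • (od i j h x).1 k l := rfl
  rw [e, jmul_dg_apply, h0, od_apply]
  by_cases h1 : k = i ∧ l = j
  · obtain ⟨rfl, rfl⟩ := h1
    simp [h.symm]
  · by_cases h2 : k = j ∧ l = i
    · obtain ⟨rfl, rfl⟩ := h2
      simp [h.symm]
    · simp [h1, h2]

lemma e_jmul_e (i : Fin 3) : jmul (e i) (e i) = e i := by
  unfold e
  rw [jmul_dg_dg]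
  congr 1
  ext j
  by_cases h : j = i
  · subst h; simp
  · simp [h]

lemma e_jmul_e_ne (i j : Fin 3) (h : i ≠ j) : jmul (e i) (e j) = 0 := by
  unfold e
  rw [jmul_dg_dg]
  have : (fun k => (Pi.single i (1 : ℝ) : Fin 3 → ℝ) k * (Pi.single j (1 : ℝ) : Fin 3 → ℝ) k)
      = 0 := by
    ext k
    by_cases h1 : k = i
    · subst h1; simp [h]
    · simp [h1]
  rw [this]
  apply Subtype.ext
  ext1 k; ext1 l
  rw [dg_apply]
  split_ifs
  · simp only [Pi.zero_apply, ofReal]
    rfl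
  · rfl

lemma od_jmul_od (i j : Fin 3) (h : i ≠ j) :
    jmul (od i j h (ofReal 1)) (od i j h (ofReal 1)) = e i + e j := by
  have hc : conj (ofReal 1) = ofReal 1 := conj_ofReal 1
  have hm : mul (ofReal 1) (ofReal 1) = ofReal 1 := by rw [ofReal_mul, one_smul]
  apply Subtype.ext
  ext1 k; ext1 l
  have h0 : (e i + e j).1 k l = (e i).1 k l + (e j).1 k l := rfl
  rw [jmul_apply, h0, e, e, dg_apply, dg_apply]
  simp only [od_apply, Fin.sum_univ_three, hc]
  have h01 : (ofReal (0 : ℝ)) = 0 := by simp [ofReal]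
  fin_cases i <;> fin_cases j <;> simp at h <;> fin_cases k <;> fin_cases l <;>
    simp [hm, mul_zero', zero_mul', h01, ← two_smul ℝ (ofReal 1), smul_smul]

lemma decompose (X : Alb) : X = re (X.1 0 0) • e 0 + re (X.1 1 1) • e 1 + re (X.1 2 2) • e 2
    + od 0 1 (by decide) (X.1 0 1) + od 1 2 (by decide) (X.1 1 2) + od 2 0 (by decide) (X.1 2 0) := by
  have hadd : ∀ (A B : Alb) (i j : Fin 3), (A + B).1 i j = A.1 i j + B.1 i j := fun _ _ _ _ => rfl
  have hsm : ∀ (r : ℝ) (A : Alb) (i j : Fin 3), (r • A).1 i j = r • A.1 i j := fun _ _ _ _ => rfl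
  have h01 : (ofReal (0 : ℝ)) = 0 := by simp [ofReal]
  have h11 : re (ofReal (1 : ℝ)) = 1 := re_ofReal 1
  have h00 : re 0 = 0 := rfl
  apply ext6 <;> simp [hadd, hsm, e, dg_apply, od_apply, re_add, re_smul, h11, h00, h01]

/-- A linear map with the trace property is determined by its value at `e 0`. -/
lemma trace_unique {V : Type*} [AddCommGroup V] [Module ℝ V] (f : Alb →ₗ[ℝ] V)
    (hf : ∀ X Y Z, f (jmul X (jmul Y Z)) = f (jmul (jmul X Y) Z)) (X : Alb) :
    f X = tr X • f (e 0) := by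
  have hod : ∀ (i j : Fin 3) (h : i ≠ j) (x : Oct), f (od i j h x) = 0 := by
    intro i j h x
    have h1 := hf (od i j h x) (e i) (e i)
    rw [e_jmul_e, od_jmul_e, smul_jmul, od_jmul_e, map_smul, map_smul, map_smul, smul_smul] at h1
    have h2 : ((1 / 2 : ℝ) - (1 / 2 * (1 / 2))) • f (od i j h x) = 0 := by
      rw [sub_smul, h1, sub_self]
    rw [smul_eq_zero] at h2
    rcases h2 with h2 | h2
    · norm_num at h2
    · exact h2
  have he : ∀ (i j : Fin 3) (h : i ≠ j), f (e i) = f (e j) := by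
    intro i j h
    have h1 := hf (e i) (od i j h (ofReal 1)) (od i j h (ofReal 1))
    rw [od_jmul_od, jmul_comm (e i) (od i j h (ofReal 1)), od_jmul_e, smul_jmul, od_jmul_od,
      jmul_add, e_jmul_e, e_jmul_e_ne i j h, add_zero, map_smul, map_add] at h1
    have h2 : (1 / 2 : ℝ) • (f (e i) - f (e j)) = 0 := by
      have : (1 / 2 : ℝ) • (f (e i) - f (e j)) = f (e i) - (1 / 2 : ℝ) • (f (e i) + f (e j)) := by
        module
      rw [this, ← h1, sub_self]
    rw [smul_eq_zero] at h2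
    rcases h2 with h2 | h2
    · norm_num at h2
    · exact sub_eq_zero.mp h2
  conv_lhs => rw [decompose X]
  simp only [map_add, map_smul, hod, add_zero]
  rw [he 1 0 (by decide), he 2 0 (by decide)]
  have : tr X = re (X.1 0 0) + re (X.1 1 1) + re (X.1 2 2) := by
    unfold tr; rw [Fin.sum_univ_three]
  rw [this]
  module

lemma tr_one : tr one = 3 := by
  rw [one, tr_dg]; simp

lemma IsAut.tr {T : Alb →ₗ[ℝ] Alb} (hT : IsAut T) (X : Alb) :
    Pool.Agent.Lib.MP_de6bc3_an.tr (T X) = Pool.Agent.Lib.MP_de6bc3_an.tr X := by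
  have h1 := trace_unique (trL.comp T) (by
    intro X Y Z
    simp only [LinearMap.comp_apply, hT.1]
    exact tr_assoc _ _ _)
  have h2 : ∀ Y, (trL.comp T) Y = Pool.Agent.Lib.MP_de6bc3_an.tr (T Y) := fun _ => rfl
  simp only [h2, smul_eq_mul] at h1
  have h3 := h1 one
  rw [hT.2, tr_one] at h3
  have h4 : Pool.Agent.Lib.MP_de6bc3_an.tr (T (e 0)) = 1 := by linarith
  rw [h1 X, h4, mul_one]

/-! ### Real orthogonal transformations -/

/-- `R X` -/
noncomputable def lm (R : Fin 3 → Fin 3 → ℝ) (X : Mat) : Mat := fun i j => ∑ k, R i k • X k j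

/-- `X Rᵀ` -/
noncomputable def rm (R : Fin 3 → Fin 3 → ℝ) (X : Mat) : Mat := fun i j => ∑ k, R j k • X i k

lemma smul_mul' (r : ℝ) (x y : Oct) : mul (r • x) y = r • mul x y := smul_mul r x y

lemma mmul_lm (R : Fin 3 → Fin 3 → ℝ) (X Y : Mat) : mmul (lm R X) Y = lm R (mmul X Y) := by
  ext1 i; ext1 j
  simp only [mmul, lm, sum_mul, smul_mul, Finset.smul_sum]
  rw [Finset.sum_comm]

lemma mmul_rm (R : Fin 3 → Fin 3 → ℝ) (X Y : Mat) : mmul X (rm R Y) = rm R (mmul X Y) := by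
  ext1 i; ext1 j
  simp only [mmul, rm, mul_sum, mul_smul, Finset.smul_sum]
  rw [Finset.sum_comm]

lemma lm_rm (R : Fin 3 → Fin 3 → ℝ) (X : Mat) : lm R (rm R X) = rm R (lm R X) := by
  ext1 i; ext1 j
  simp only [lm, rm, Finset.smul_sum, smul_smul]
  rw [Finset.sum_comm]
  refine Finset.sum_congr rfl fun k _ => Finset.sum_congr rfl fun l _ => ?_
  rw [mul_comm]

lemma mmul_rm_lm (R : Fin 3 → Fin 3 → ℝ) (hR : ∀ k l, ∑ m, R m k * R m l = if k = l then 1 else 0)
    (X Y : Mat) : mmul (rm R X) (lm R Y) = mmul X Y := by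
  ext1 i; ext1 j
  have h1 : mmul (rm R X) (lm R Y) i j
      = ∑ k, ∑ m, ∑ n, (R k m * R k n) • mul (X i m) (Y n j) := by
    simp only [mmul, rm, lm]
    refine Finset.sum_congr rfl fun k _ => ?_
    rw [sum_mul]
    refine Finset.sum_congr rfl fun m _ => ?_
    rw [mul_sum]
    refine Finset.sum_congr rfl fun n _ => ?_
    rw [smul_mul, mul_smul, smul_smul]
  rw [h1, Finset.sum_comm]
  simp only [mmul]
  refine Finset.sum_congr rfl fun m _ => ?_
  rw [Finset.sum_comm]
  have h2 : ∀ n : Fin 3, ∑ k, (R k m * R k n) • mul (X i m) (Y n j)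
      = if m = n then mul (X i m) (Y n j) else 0 := by
    intro n
    rw [← Finset.sum_smul, hR m n]
    split_ifs <;> simp
  simp only [h2]
  simp

/-- `X ↦ R X Rᵀ` for a real matrix `R`. -/
noncomputable def rot (R : Fin 3 → Fin 3 → ℝ) : Alb →ₗ[ℝ] Alb where
  toFun := fun X => ⟨lm R (rm R X.1), by
    intro i j
    simp only [lm, rm, Finset.smul_sum, conj_sum, conj_smul]
    rw [Finset.sum_comm]
    refine Finset.sum_congr rfl fun k _ => Finset.sum_congr rfl fun l _ => ?_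
    rw [← herm, smul_comm]⟩
  map_add' := by
    intro X Y
    apply Subtype.ext
    ext1 i; ext1 j
    have h : ∀ k l, (X + Y).1 k l = X.1 k l + Y.1 k l := fun _ _ => rfl
    simp only [lm, rm, h, smul_add, Finset.sum_add_distrib]
    rfl
  map_smul' := by
    intro r X
    apply Subtype.ext
    ext1 i; ext1 j
    have h : ∀ k l, (r • X).1 k l = r • X.1 k l := fun _ _ => rfl
    change lm R (rm R (r • X).1) i j = r • lm R (rm R X.1) i j
    simp only [lm, rm, h, Finset.smul_sum]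
    refine Finset.sum_congr rfl fun k _ => Finset.sum_congr rfl fun l _ => ?_
    rw [smul_comm (R j l) r, smul_comm (R i k) r]

lemma rot_apply (R : Fin 3 → Fin 3 → ℝ) (X : Alb) (i j : Fin 3) :
    (rot R X).1 i j = ∑ k, R i k • ∑ l, R j l • X.1 k l := rfl

lemma isAut_rot (R : Fin 3 → Fin 3 → ℝ) (hR : ∀ k l, ∑ m, R m k * R m l = if k = l then 1 else 0)
    (hR' : ∀ k l, ∑ m, R k m * R l m = if k = l then 1 else 0) : IsAut (rot R) := by
  have hmm : ∀ X Y : Alb, mmul (lm R (rm R X.1)) (lm R (rm R Y.1)) = lm R (rm R (mmul X.1 Y.1)) := by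
    intro X Y
    rw [mmul_lm, lm_rm R Y.1, mmul_rm, mmul_rm_lm R hR]
  refine ⟨fun X Y => ?_, ?_⟩
  · apply Subtype.ext
    have h1 : (jmul (rot R X) (rot R Y)).1 = (1 / 2 : ℝ) • (mmul (lm R (rm R X.1)) (lm R (rm R Y.1))
        + mmul (lm R (rm R Y.1)) (lm R (rm R X.1))) := rfl
    rw [h1, hmm, hmm]
    ext1 i; ext1 j
    rw [rot_apply]
    have h2 : ∀ k l, (jmul X Y).1 k l = (1 / 2 : ℝ) • (mmul X.1 Y.1 k l + mmul Y.1 X.1 k l) :=
      fun _ _ => rfl
    change _ = (1 / 2 : ℝ) • (lm R (rm R (mmul X.1 Y.1)) i j + lm R (rm R (mmul Y.1 X.1)) i j)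
    simp only [lm, rm, h2, ← Finset.sum_add_distrib, Finset.smul_sum, ← smul_add]
    refine Finset.sum_congr rfl fun k _ => Finset.sum_congr rfl fun l _ => ?_
    rw [smul_comm (R j l), smul_comm (R i k)]
  · apply Subtype.ext
    ext1 i; ext1 j
    rw [rot_apply, one, dg_apply]
    have h1 : ∀ k l : Fin 3, (dg fun _ => (1 : ℝ)).1 k l = if k = l then ofReal 1 else 0 :=
      fun _ _ => rfl
    simp only [h1, smul_ite, smul_zero, Finset.sum_ite_eq, Finset.mem_univ, if_true, smul_smul]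
    rw [← Finset.sum_smul, hR' i j]
    split_ifs <;> simp

/-- cyclic permutation -/
noncomputable def cyc : Alb →ₗ[ℝ] Alb := rot fun i j => if j = i + 1 then 1 else 0

noncomputable def cycInv : Alb →ₗ[ℝ] Alb := rot fun i j => if j = i + 2 then 1 else 0

lemma cyc_apply (X : Alb) (i j : Fin 3) : (cyc X).1 i j = X.1 (i + 1) (j + 1) := by
  rw [cyc, rot_apply]
  simp

lemma cycInv_apply (X : Alb) (i j : Fin 3) : (cycInv X).1 i j = X.1 (i + 2) (j + 2) := by
  rw [cycInv, rot_apply]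
  simp

lemma isAut_cyc : IsAut cyc := by
  apply isAut_rot
  · intro k l
    fin_cases k <;> fin_cases l <;> simp [Fin.sum_univ_three]
  · intro k l
    fin_cases k <;> fin_cases l <;> simp [Fin.sum_univ_three]

lemma isAut_cycInv : IsAut cycInv := by
  apply isAut_rot
  · intro k l
    fin_cases k <;> fin_cases l <;> simp [Fin.sum_univ_three]
  · intro k l
    fin_cases k <;> fin_cases l <;> simp [Fin.sum_univ_three]

/-- Rotation in the `(0,1)`-plane. -/
noncomputable def rotR (c s : ℝ) : Fin 3 → Fin 3 → ℝ := ![![c, s, 0], ![-s, c, 0], ![0, 0, 1]]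

lemma isAut_rotR (c s : ℝ) (h : c ^ 2 + s ^ 2 = 1) : IsAut (rot (rotR c s)) := by
  apply isAut_rot
  · intro k l
    fin_cases k <;> fin_cases l <;> simp [Fin.sum_univ_three, rotR] <;> nlinarith
  · intro k l
    fin_cases k <;> fin_cases l <;> simp [Fin.sum_univ_three, rotR] <;> nlinarith

/-! ### Gauge transformations -/

lemma mou1 (u x y : Oct) :
    mul (mul (conj u) x) (mul y (conj u)) = mul (mul (conj u) (mul x y)) (conj u) :=
  moufang1 (conj u) x y

lemma mou2 (u x y : Oct) (hu : nsq u = 1) :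
    mul (mul x (conj u)) (mul (mul u y) u) = mul (mul x y) u := by
  have := moufang2 (conj u) x y
  rw [conj_conj, nsq_conj, hu, one_smul] at this
  exact this

lemma mou3 (u x y : Oct) (hu : nsq u = 1) :
    mul (mul (mul u x) u) (mul (conj u) y) = mul u (mul x y) := by
  have := moufang3 (conj u) x y
  rw [conj_conj, nsq_conj, hu, one_smul] at this
  exact this

/-- The gauge transformation `X_01 ↦ u X_01`, `X_12 ↦ X_12 u`, `X_20 ↦ ū X_20 ū`. -/
noncomputable def gaugeMat (u : Oct) (X : Mat) : Mat :=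
  ![![X 0 0, mul u (X 0 1), mul (mul u (X 0 2)) u],
    ![mul (X 1 0) (conj u), X 1 1, mul (X 1 2) u],
    ![mul (mul (conj u) (X 2 0)) (conj u), mul (conj u) (X 2 1), X 2 2]]

noncomputable def gauge (u : Oct) : Alb →ₗ[ℝ] Alb where
  toFun := fun X => ⟨gaugeMat u X.1, by
    intro i j
    fin_cases i <;> fin_cases j <;>
      simp [gaugeMat, conj_mul, conj_conj, ← herm, flex]⟩
  map_add' := by
    intro X Y
    apply Subtype.ext
    have h : ∀ k l, (X + Y).1 k l = X.1 k l + Y.1 k l := fun _ _ => rfl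
    change gaugeMat u (X + Y).1 = gaugeMat u X.1 + gaugeMat u Y.1
    ext1 i; ext1 j
    fin_cases i <;> fin_cases j <;> simp [gaugeMat, h, mul_add, add_mul]
  map_smul' := by
    intro r X
    apply Subtype.ext
    have h : ∀ k l, (r • X).1 k l = r • X.1 k l := fun _ _ => rfl
    change gaugeMat u (r • X).1 = r • gaugeMat u X.1
    ext1 i; ext1 j
    fin_cases i <;> fin_cases j <;> simp [gaugeMat, h, mul_smul, smul_mul]

lemma gauge_00 (u : Oct) (X : Alb) : (gauge u X).1 0 0 = X.1 0 0 := rfl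
lemma gauge_11 (u : Oct) (X : Alb) : (gauge u X).1 1 1 = X.1 1 1 := rfl
lemma gauge_22 (u : Oct) (X : Alb) : (gauge u X).1 2 2 = X.1 2 2 := rfl
lemma gauge_01 (u : Oct) (X : Alb) : (gauge u X).1 0 1 = mul u (X.1 0 1) := rfl
lemma gauge_10 (u : Oct) (X : Alb) : (gauge u X).1 1 0 = mul (X.1 1 0) (conj u) := rfl
lemma gauge_12 (u : Oct) (X : Alb) : (gauge u X).1 1 2 = mul (X.1 1 2) u := rfl
lemma gauge_21 (u : Oct) (X : Alb) : (gauge u X).1 2 1 = mul (conj u) (X.1 2 1) := rfl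
lemma gauge_20 (u : Oct) (X : Alb) :
    (gauge u X).1 2 0 = mul (mul (conj u) (X.1 2 0)) (conj u) := rfl
lemma gauge_02 (u : Oct) (X : Alb) : (gauge u X).1 0 2 = mul (mul u (X.1 0 2)) u := rfl

lemma ip_ofReal (r s : ℝ) : ip (ofReal r) (ofReal s) = r * s := by
  simp [ip, ofReal_c0, ofReal_c1, ofReal_c2, ofReal_c3, ofReal_c4, ofReal_c5, ofReal_c6, ofReal_c7]

lemma ofReal_zero : ofReal 0 = 0 := by simp [ofReal]

lemma isAut_gauge (u : Oct) (hu : nsq u = 1) : IsAut (gauge u) := by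
  have hu' : nsq (conj u) = 1 := by rw [nsq_conj, hu]
  refine ⟨fun X Y => ?_, ?_⟩
  · apply ext6
    · rw [gauge_00, re_jmul_diag, re_jmul_diag]
      simp only [Fin.sum_univ_three, gauge_00, gauge_01, gauge_02, ip_mul_mul_left,
        ip_mul_mul_right, hu, one_mul]
    · rw [gauge_11, re_jmul_diag, re_jmul_diag]
      simp only [Fin.sum_univ_three, gauge_11, gauge_10, gauge_12,
        ip_mul_mul_right, hu, hu', one_mul]
    · rw [gauge_22, re_jmul_diag, re_jmul_diag]
      simp only [Fin.sum_univ_three, gauge_22, gauge_20, gauge_21, ip_mul_mul_left,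
        ip_mul_mul_right, hu', one_mul]
    · rw [gauge_01, jmul_apply, jmul_apply]
      simp only [Fin.sum_univ_three, gauge_00, gauge_01, gauge_11, gauge_02, gauge_21]
      rw [mou3 u _ _ hu, mou3 u _ _ hu, diag_real X 0, diag_real X 1, diag_real Y 0, diag_real Y 1]
      simp only [ofReal_mul, mul_ofReal, mul_smul, mul_add]
    · rw [gauge_12, jmul_apply, jmul_apply]
      simp only [Fin.sum_univ_three, gauge_10, gauge_02, gauge_11, gauge_12, gauge_22]
      rw [mou2 u _ _ hu, mou2 u _ _ hu, diag_real X 1, diag_real X 2, diag_real Y 1, diag_real Y 2]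
      simp only [ofReal_mul, mul_ofReal, smul_mul, add_mul]
    · rw [gauge_20, jmul_apply, jmul_apply]
      simp only [Fin.sum_univ_three, gauge_20, gauge_00, gauge_21, gauge_10, gauge_22]
      rw [mou1, mou1, diag_real X 0, diag_real X 2, diag_real Y 0, diag_real Y 2]
      simp only [ofReal_mul, mul_ofReal, smul_mul, add_mul, mul_smul, mul_add]
  · have h0 : ∀ (i j : Fin 3), one.1 i j = if i = j then ofReal 1 else 0 := fun _ _ => rfl
    apply ext6
    · rw [gauge_00]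
    · rw [gauge_11]
    · rw [gauge_22]
    · rw [gauge_01, h0, if_neg (by decide), mul_zero']
    · rw [gauge_12, h0, if_neg (by decide), zero_mul']
    · rw [gauge_20, h0, if_neg (by decide), mul_zero', zero_mul']

/-- The second gauge transformation, fixing real entries at `(0,1)`. -/
noncomputable def gauge2 (u : Oct) : Alb →ₗ[ℝ] Alb :=
  cyc.comp ((gauge (conj u)).comp (cycInv.comp (gauge u)))

lemma isAut_gauge2 (u : Oct) (hu : nsq u = 1) : IsAut (gauge2 u) :=
  isAut_cyc.comp ((isAut_gauge (conj u) (by rw [nsq_conj, hu])).comp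
    (isAut_cycInv.comp (isAut_gauge u hu)))

lemma gauge2_01 (u : Oct) (X : Alb) : (gauge2 u X).1 0 1 = mul (mul u (X.1 0 1)) (conj u) := by
  simp only [gauge2, LinearMap.comp_apply]
  rw [cyc_apply, show ((0 : Fin 3) + 1) = 1 from rfl, show ((1 : Fin 3) + 1) = 2 from rfl, gauge_12,
    cycInv_apply, show ((1 : Fin 3) + 2) = 0 from rfl, show ((2 : Fin 3) + 2) = 1 from rfl, gauge_01]

lemma gauge2_12 (u : Oct) (X : Alb) :
    (gauge2 u X).1 1 2 = mul (mul u (mul (X.1 1 2) u)) u := by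
  simp only [gauge2, LinearMap.comp_apply]
  rw [cyc_apply, show ((1 : Fin 3) + 1) = 2 from rfl, show ((2 : Fin 3) + 1) = 0 from rfl, gauge_20,
    cycInv_apply, show ((2 : Fin 3) + 2) = 1 from rfl, show ((0 : Fin 3) + 2) = 2 from rfl, gauge_12,
    conj_conj]

lemma gauge2_diag (u : Oct) (X : Alb) (i : Fin 3) : (gauge2 u X).1 i i = X.1 i i := by
  simp only [gauge2, LinearMap.comp_apply]
  fin_cases i
  · simp only [Fin.zero_eta]
    rw [cyc_apply, show ((0 : Fin 3) + 1) = 1 from rfl, gauge_11, cycInv_apply,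
      show ((1 : Fin 3) + 2) = 0 from rfl, gauge_00]
  · simp only [Fin.mk_one]
    rw [cyc_apply, show ((1 : Fin 3) + 1) = 2 from rfl, gauge_22, cycInv_apply,
      show ((2 : Fin 3) + 2) = 1 from rfl, gauge_11]
  · simp only [Fin.reduceFinMk]
    rw [cyc_apply, show ((2 : Fin 3) + 1) = 0 from rfl, gauge_00, cycInv_apply,
      show ((0 : Fin 3) + 2) = 2 from rfl, gauge_22]

lemma gauge_diag (u : Oct) (X : Alb) (i : Fin 3) : (gauge u X).1 i i = X.1 i i := by
  fin_cases i <;> rfl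

lemma nsq_smul (r : ℝ) (x : Oct) : nsq (r • x) = r ^ 2 * nsq x := by
  unfold nsq
  rw [ip_smul_left, ip_comm, ip_smul_left]; ring

lemma nsq_eq_zero {x : Oct} (h : nsq x = 0) : x = 0 := by
  simp only [nsq, ip] at h
  have h0 := sq_nonneg (c0 x)
  have h1 := sq_nonneg (c1 x)
  have h2 := sq_nonneg (c2 x)
  have h3 := sq_nonneg (c3 x)
  have h4 := sq_nonneg (c4 x)
  have h5 := sq_nonneg (c5 x)
  have h6 := sq_nonneg (c6 x)
  have h7 := sq_nonneg (c7 x)
  apply ext'
  · rw [zero_c0]; nlinarith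
  · rw [zero_c1]; nlinarith
  · rw [zero_c2]; nlinarith
  · rw [zero_c3]; nlinarith
  · rw [zero_c4]; nlinarith
  · rw [zero_c5]; nlinarith
  · rw [zero_c6]; nlinarith
  · rw [zero_c7]; nlinarith

lemma conj_mul_self (x : Oct) : mul (conj x) x = ofReal (nsq x) := by
  have h := conj_mul_mul x (ofReal 1)
  rw [mul_ofReal, one_smul] at h
  rw [h]
  apply ext' <;> simp [smul_c0, smul_c1, smul_c2, smul_c3, smul_c4, smul_c5, smul_c6, smul_c7,
    ofReal_c0, ofReal_c1, ofReal_c2, ofReal_c3, ofReal_c4, ofReal_c5, ofReal_c6, ofReal_c7]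

/-- Any octonion can be made real by a unit octonion from the left. -/
lemma exists_unit_mul (x : Oct) : ∃ u : Oct, nsq u = 1 ∧ mul u x = ofReal (Real.sqrt (nsq x)) := by
  by_cases hx : nsq x = 0
  · refine ⟨ofReal 1, ?_, ?_⟩
    · unfold nsq; rw [ip_ofReal]; norm_num
    · rw [hx, nsq_eq_zero hx, mul_zero', Real.sqrt_zero, ofReal_zero]
  · have hpos : 0 < nsq x := lt_of_le_of_ne (nsq_nonneg x) (Ne.symm hx)
    have hs : 0 < Real.sqrt (nsq x) := Real.sqrt_pos.mpr hpos
    refine ⟨(Real.sqrt (nsq x))⁻¹ • conj x, ?_, ?_⟩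
    · rw [nsq_smul, nsq_conj, inv_pow, Real.sq_sqrt hpos.le]
      exact inv_mul_cancel₀ hx
    · rw [smul_mul, conj_mul_self]
      have : (Real.sqrt (nsq x))⁻¹ • ofReal (nsq x) = ofReal ((Real.sqrt (nsq x))⁻¹ * nsq x) := by
        apply ext' <;> simp [smul_c0, smul_c1, smul_c2, smul_c3, smul_c4, smul_c5, smul_c6, smul_c7,
          ofReal_c0, ofReal_c1, ofReal_c2, ofReal_c3, ofReal_c4, ofReal_c5, ofReal_c6, ofReal_c7]
      rw [this]
      congr 1
      rw [inv_mul_eq_div, div_eq_iff hs.ne', Real.mul_self_sqrt hpos.le]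

/-- The embedding of `ℂ` given by an imaginary unit `t`. -/
noncomputable def phi (t : Oct) (z : ℂ) : Oct := ofReal z.re + z.im • t

lemma phi_mul (t : Oct) (h0 : re t = 0) (h1 : nsq t = 1) (z w : ℂ) :
    mul (phi t z) (phi t w) = phi t (z * w) := by
  have htt : mul t t = ofReal (-1) := by
    have hc : conj t = -t := by
      rw [re_eq] at h0
      apply ext' <;> simp [conj_c0, conj_c1, conj_c2, conj_c3, conj_c4, conj_c5, conj_c6, conj_c7,
        neg_c0, neg_c1, neg_c2, neg_c3, neg_c4, neg_c5, neg_c6, neg_c7, h0]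
    have h2 := conj_mul_self t
    rw [hc, h1] at h2
    have h3 : mul (-t) t = -mul t t := by
      have := smul_mul (-1) t t
      simpa using this
    rw [h3] at h2
    have h4 : mul t t = -ofReal 1 := by rw [← h2]; simp
    rw [h4]
    simp [ofReal]
  unfold phi
  simp only [mul_add, add_mul, mul_smul, smul_mul, htt, ofReal_mul, mul_ofReal]
  have ho : ∀ a b : ℝ, a • ofReal b = ofReal (a * b) := by
    intro a b
    apply ext' <;> simp [smul_c0, smul_c1, smul_c2, smul_c3, smul_c4, smul_c5, smul_c6, smul_c7,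
      ofReal_c0, ofReal_c1, ofReal_c2, ofReal_c3, ofReal_c4, ofReal_c5, ofReal_c6, ofReal_c7]
  have ha : ∀ a b : ℝ, ofReal a + ofReal b = ofReal (a + b) := by
    intro a b
    apply ext' <;> simp [add_c0, add_c1, add_c2, add_c3, add_c4, add_c5, add_c6, add_c7,
      ofReal_c0, ofReal_c1, ofReal_c2, ofReal_c3, ofReal_c4, ofReal_c5, ofReal_c6, ofReal_c7]
  simp only [Complex.mul_re, Complex.mul_im, ho]
  have : ofReal (z.re * w.re - z.im * w.im) = ofReal (z.re * w.re) + ofReal (z.im * (w.im * -1)) := by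
    rw [ha]; congr 1; ring
  rw [this, add_smul]
  have e1 : ofReal (w.re * z.re) = ofReal (z.re * w.re) := by rw [mul_comm]
  have e2 : ofReal (w.im * (z.im * -1)) = ofReal (z.im * (w.im * -1)) := by
    congr 1; ring
  simp only [smul_add, ho, smul_smul, e1, e2]
  module

/-- Any octonion `x` lies in some `phi t`. -/
lemma exists_phi (x : Oct) : ∃ (t : Oct) (z : ℂ), re t = 0 ∧ nsq t = 1 ∧ x = phi t z := by
  set y : Oct := x - ofReal (re x) with hy
  have hre : re y = 0 := by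
    rw [hy, re_eq, re_eq, sub_c0, ofReal_c0, sub_self]
  by_cases h : nsq y = 0
  · have hy0 := nsq_eq_zero h
    refine ⟨((⟨0, 1, 0, 0⟩ : ℍ[ℝ]), 0), ⟨re x, 0⟩, rfl, ?_, ?_⟩
    · simp [nsq, ip, c0, c1, c2, c3, c4, c5, c6, c7]
    · unfold phi
      simp only [zero_smul, add_zero]
      rw [hy, sub_eq_zero] at hy0
      exact hy0
  · have hpos : 0 < nsq y := lt_of_le_of_ne (nsq_nonneg y) (Ne.symm h)
    have hs : 0 < Real.sqrt (nsq y) := Real.sqrt_pos.mpr hpos
    refine ⟨(Real.sqrt (nsq y))⁻¹ • y, ⟨re x, Real.sqrt (nsq y)⟩, ?_, ?_, ?_⟩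
    · rw [re_smul, hre, mul_zero]
    · rw [nsq_smul, inv_pow, Real.sq_sqrt hpos.le]
      exact inv_mul_cancel₀ h
    · unfold phi
      simp only [smul_smul]
      rw [mul_inv_cancel₀ hs.ne', one_smul, hy]
      abel

/-- Any octonion can be made real by `x ↦ (u (x u)) u` for some unit octonion `u`. -/
lemma exists_unit_cube (x : Oct) : ∃ (u : Oct) (r : ℝ), nsq u = 1 ∧
    mul (mul u (mul x u)) u = ofReal r := by
  obtain ⟨t, z, ht0, ht1, hx⟩ := exists_phi x
  -- a cube root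
  obtain ⟨c, hc1, r, hc2⟩ : ∃ c : ℂ, ‖c‖ = 1 ∧ ∃ r : ℝ, c * z * c * c = (r : ℂ) := by
    obtain ⟨ρ, θ, hz⟩ : ∃ ρ θ : ℝ, z = (ρ : ℂ) * Complex.exp ((θ : ℂ) * Complex.I) :=
      ⟨‖z‖, z.arg, (Complex.norm_mul_exp_arg_mul_I z).symm⟩
    refine ⟨Complex.exp (((-(θ / 3) : ℝ) : ℂ) * Complex.I), Complex.norm_exp_ofReal_mul_I _,
      ρ, ?_⟩
    rw [hz]
    have h2 : Complex.exp (((-(θ / 3) : ℝ) : ℂ) * Complex.I)
        * ((ρ : ℂ) * Complex.exp ((θ : ℂ) * Complex.I))
        * Complex.exp (((-(θ / 3) : ℝ) : ℂ) * Complex.I)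
        * Complex.exp (((-(θ / 3) : ℝ) : ℂ) * Complex.I)
        = (ρ : ℂ) * (Complex.exp ((θ : ℂ) * Complex.I)
          * Complex.exp (((-(θ / 3) : ℝ) : ℂ) * Complex.I)
          * Complex.exp (((-(θ / 3) : ℝ) : ℂ) * Complex.I)
          * Complex.exp (((-(θ / 3) : ℝ) : ℂ) * Complex.I)) := by
      ring
    rw [h2, ← Complex.exp_add, ← Complex.exp_add, ← Complex.exp_add]
    have h3 : (θ : ℂ) * Complex.I + ((-(θ / 3) : ℝ) : ℂ) * Complex.I
        + ((-(θ / 3) : ℝ) : ℂ) * Complex.I + ((-(θ / 3) : ℝ) : ℂ) * Complex.I = 0 := by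
      push_cast; ring
    rw [h3, Complex.exp_zero, mul_one]
  refine ⟨phi t c, r, ?_, ?_⟩
  · -- norm one
    have h1 : nsq (phi t c) = c.re ^ 2 + c.im ^ 2 := by
      have e1 : ip (ofReal c.re) t = 0 := by
        rw [re_eq] at ht0
        simp [ip, ofReal_c0, ofReal_c1, ofReal_c2, ofReal_c3, ofReal_c4, ofReal_c5, ofReal_c6,
          ofReal_c7, ht0]
      have e2 : ip t t = 1 := ht1
      unfold nsq phi
      rw [ip_add_left, ip_add_right, ip_add_right, ip_smul_left, ip_smul_left, ip_smul_right,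
        ip_smul_right, ip_comm t (ofReal c.re), e1, e2, ip_ofReal]
      ring
    rw [h1]
    have h2 : c.re ^ 2 + c.im ^ 2 = ‖c‖ ^ 2 := by
      rw [Complex.sq_norm, Complex.normSq_apply]; ring
    rw [h2, hc1, one_pow]
  · rw [hx, phi_mul t ht0 ht1, phi_mul t ht0 ht1, phi_mul t ht0 ht1]
    have : c * (z * c) * c = (r : ℂ) := by rw [← hc2]; ring
    rw [this]
    simp [phi]

/-- Gauge fixing: one can make the entries `(0,1)` and `(1,2)` real without changing
diagonal matrices. -/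
lemma exists_gauge (X : Alb) : ∃ T : Alb →ₗ[ℝ] Alb, IsAut T ∧ (∀ l, T (dg l) = dg l) ∧
    (∃ r, (T X).1 0 1 = ofReal r) ∧ (∃ r, (T X).1 1 2 = ofReal r) := by
  obtain ⟨u, hu, hu2⟩ := exists_unit_mul (X.1 0 1)
  obtain ⟨v, r, hv, hv2⟩ := exists_unit_cube ((gauge u X).1 1 2)
  have hdg : ∀ (w : Oct) (l : Fin 3 → ℝ), gauge w (dg l) = dg l := by
    intro w l
    have h0 : ∀ (i j : Fin 3), (dg l).1 i j = if i = j then ofReal (l i) else 0 := fun _ _ => rfl
    apply ext6
    · rw [gauge_00]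
    · rw [gauge_11]
    · rw [gauge_22]
    · rw [gauge_01, h0, if_neg (by decide), mul_zero']
    · rw [gauge_12, h0, if_neg (by decide), zero_mul']
    · rw [gauge_20, h0, if_neg (by decide), mul_zero', zero_mul']
  have hcycInv : ∀ l : Fin 3 → ℝ, cycInv (dg l) = dg (fun i => l (i + 2)) := by
    intro l
    apply Subtype.ext
    ext1 i; ext1 j
    rw [cycInv_apply, dg_apply, dg_apply]
    simp
  have hcyc : ∀ l : Fin 3 → ℝ, cyc (dg l) = dg (fun i => l (i + 1)) := by
    intro l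
    apply Subtype.ext
    ext1 i; ext1 j
    rw [cyc_apply, dg_apply, dg_apply]
    simp
  have hdg2 : ∀ (w : Oct) (l : Fin 3 → ℝ), gauge2 w (dg l) = dg l := by
    intro w l
    simp only [gauge2, LinearMap.comp_apply]
    rw [hdg, hcycInv, hdg, hcyc]
    congr 1
    ext i
    rw [add_assoc]
    simp
  refine ⟨(gauge2 v).comp (gauge u), (isAut_gauge2 v hv).comp (isAut_gauge u hu), ?_, ?_, ?_⟩
  · intro l
    rw [LinearMap.comp_apply, hdg, hdg2]
  · rw [LinearMap.comp_apply, gauge2_01, gauge_01, hu2, mul_ofReal, smul_mul]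
    refine ⟨Real.sqrt (nsq (X.1 0 1)), ?_⟩
    have : mul v (conj v) = ofReal 1 := by
      have := conj_mul_self (conj v)
      rw [conj_conj, nsq_conj, hv] at this
      exact this
    rw [this]
    apply ext' <;> simp [smul_c0, smul_c1, smul_c2, smul_c3, smul_c4, smul_c5, smul_c6, smul_c7,
      ofReal_c0, ofReal_c1, ofReal_c2, ofReal_c3, ofReal_c4, ofReal_c5, ofReal_c6, ofReal_c7]
  · rw [LinearMap.comp_apply, gauge2_12]
    exact ⟨r, hv2⟩

end Pool.Agent.Lib.MP_de6bc3_an
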