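import Pool.Agent.Lib.MP_de6bc3_an.Key

set_option autoImplicit false

open scoped Quaternion

namespace Pool.Agent.Lib.MP_de6bc3_an

open Oct

lemma re_zero : re 0 = 0 := rfl

lemma dg_eq_sum (m : Fin 3 → ℝ) : dg m = m 0 • e 0 + m 1 • e 1 + m 2 • e 2 := by
  apply ext6 <;> simp [add_apply', smul_apply', e, dg_apply, re_add, re_smul, re_ofReal, re_zero]

lemma one_eq_sum : one = e 0 + e 1 + e 2 := by
  rw [one, dg_eq_sum]; simp

lemma re_diag_nonneg (S : Alb →ₗ[ℝ] Alb) (hS : IsAut S) (i j : Fin 3) :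
    0 ≤ re ((S (e j)).1 i i) := by
  rw [← e_jmul_e, hS.1, re_jmul_diag]
  exact Finset.sum_nonneg fun k _ => nsq_nonneg _

lemma re_diag_row (S : Alb →ₗ[ℝ] Alb) (hS : IsAut S) (i : Fin 3) :
    re ((S (e 0)).1 i i) + re ((S (e 1)).1 i i) + re ((S (e 2)).1 i i) = 1 := by
  have h : re ((S one).1 i i) = 1 := by
    rw [hS.2, one, dg_apply, if_pos rfl, re_ofReal]
  rw [one_eq_sum, map_add, map_add, add_apply', add_apply', re_add, re_add] at h
  exact h

lemma re_diag_col (S : Alb →ₗ[ℝ] Alb) (hS : IsAut S) (j : Fin 3) :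
    ∑ i, re ((S (e j)).1 i i) = 1 := by
  have h : tr (S (e j)) = 1 := by
    rw [hS.tr, e, tr_dg]
    simp
  exact h

lemma tr_dg_S (S : Alb →ₗ[ℝ] Alb) (l m : Fin 3 → ℝ) :
    tr (jmul (dg l) (S (dg m))) = ∑ i, ∑ j, l i * m j * re ((S (e j)).1 i i) := by
  rw [jmul_comm, tr_jmul_dg]
  refine Finset.sum_congr rfl fun i _ => ?_
  rw [dg_eq_sum m, map_add, map_add, map_smul, map_smul, map_smul, add_apply', add_apply',
    smul_apply', smul_apply', smul_apply', re_add, re_add, re_smul, re_smul, re_smul,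
    Fin.sum_univ_three]
  ring

/-- Weighted arithmetic-geometric mean inequality. -/
lemma young_scalar (x y α β s : ℝ) (hx : 0 < x) (hy : 0 < y) (hα : 0 ≤ α) (hβ : 0 ≤ β)
    (hs : 0 < s) (h : α + β = s) : x ^ α * y ^ β ≤ α / s * x ^ s + β / s * y ^ s := by
  have h1 := Real.geom_mean_le_arith_mean2_weighted (w₁ := α / s) (w₂ := β / s) (p₁ := x ^ s)
    (p₂ := y ^ s) (by positivity) (by positivity) (by positivity) (by positivity)
    (by rw [← add_div, h, div_self hs.ne'])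
  have h2 : (x ^ s) ^ (α / s) = x ^ α := by
    rw [← Real.rpow_mul hx.le]
    congr 1
    field_simp
  have h3 : (y ^ s) ^ (β / s) = y ^ β := by
    rw [← Real.rpow_mul hy.le]
    congr 1
    field_simp
  rw [h2, h3] at h1
  exact h1

/-- Trace Young inequality in the Albert algebra. -/
lemma young (S : Alb →ₗ[ℝ] Alb) (hS : IsAut S) (x y : Fin 3 → ℝ) (hx : ∀ i, 0 < x i)
    (hy : ∀ i, 0 < y i) (α β s : ℝ) (hα : 0 ≤ α) (hβ : 0 ≤ β) (hs : 0 < s) (h : α + β = s) :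
    tr (jmul (dg fun i => x i ^ α) (S (dg fun j => y j ^ β)))
      ≤ α / s * ∑ i, x i ^ s + β / s * ∑ j, y j ^ s := by
  rw [tr_dg_S]
  have h1 : ∑ i, ∑ j, x i ^ α * y j ^ β * re ((S (e j)).1 i i)
      ≤ ∑ i, ∑ j, (α / s * x i ^ s + β / s * y j ^ s) * re ((S (e j)).1 i i) :=
    Finset.sum_le_sum fun i _ => Finset.sum_le_sum fun j _ =>
      mul_le_mul_of_nonneg_right (young_scalar _ _ α β s (hx i) (hy j) hα hβ hs h)
        (re_diag_nonneg S hS i j)
  refine h1.trans (le_of_eq ?_)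
  have h2 : ∀ i j, (α / s * x i ^ s + β / s * y j ^ s) * re ((S (e j)).1 i i)
      = α / s * (x i ^ s * re ((S (e j)).1 i i)) + β / s * (y j ^ s * re ((S (e j)).1 i i)) := by
    intro i j; ring
  simp only [h2, Finset.sum_add_distrib, ← Finset.mul_sum]
  congr 2
  · refine Finset.sum_congr rfl fun i _ => ?_
    rw [Fin.sum_univ_three, re_diag_row S hS i, mul_one]
  · rw [Finset.sum_comm]
    refine Finset.sum_congr rfl fun j _ => ?_
    rw [← Finset.mul_sum, re_diag_col S hS j, mul_one]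

lemma jmul_sub (X Y Z : Alb) : jmul X (Y - Z) = jmul X Y - jmul X Z := by
  have := map_sub (jmulL X) Y Z
  exact this

lemma sub_jmul (X Y Z : Alb) : jmul (X - Y) Z = jmul X Z - jmul Y Z := by
  rw [jmul_comm, jmul_sub, jmul_comm Z, jmul_comm Z]

/-- `2 tr(a'(a v)) ≤ tr(a'² v) + tr(a² v)` for `v = dg ν ≥ 0`. -/
lemma key_ge_one (a' a : Alb) (ν : Fin 3 → ℝ) (hν : ∀ i, 0 ≤ ν i) :
    2 * tr (jmul a' (jmul a (dg ν))) ≤ tr (jmul (jmul a' a') (dg ν)) + tr (jmul (jmul a a) (dg ν)) := by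
  have h : 0 ≤ tr (jmul (jmul (a' - a) (a' - a)) (dg ν)) := by
    rw [tr_jmul_dg]
    refine Finset.sum_nonneg fun i _ => mul_nonneg (hν i) ?_
    rw [re_jmul_diag]
    exact Finset.sum_nonneg fun k _ => nsq_nonneg _
  rw [jmul_sub, sub_jmul, sub_jmul, jmul_comm a a', sub_jmul, sub_jmul, sub_jmul,
    tr_sub, tr_sub, tr_sub] at h
  rw [tr_assoc]
  linarith

lemma main_ineq (s : ℝ) (hs : 1 / 2 ≤ s) (ε : ℝ) (hε : 0 < ε) (a b a' b' : Alb)
    (S : Alb →ₗ[ℝ] Alb) (hS : IsAut S) (l m : Fin 3 → ℝ) (hl : ∀ i, 0 < l i) (hm : ∀ i, 0 < m i)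
    (h : jmul a a + jmul b b + ε • one = dg l)
    (h' : jmul a' a' + jmul b' b' + ε • one = S (dg m)) :
    tr (jmul (jmul a' a + jmul b' b + ε • one) (dg fun i => l i ^ (s - 1)))
      ≤ (1 / (2 * s)) * ∑ j, m j ^ s + (1 - 1 / (2 * s)) * ∑ i, l i ^ s := by
  have hs0 : 0 < s := by linarith
  set v := dg fun i => l i ^ (s - 1) with hv
  have hone : ∀ X : Alb, jmul one X = X := fun X => by rw [jmul_comm, jmul_one]
  have hLHS : tr (jmul (jmul a' a + jmul b' b + ε • one) v)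
      = tr (jmul a' (jmul a v)) + tr (jmul b' (jmul b v)) + ε * tr v := by
    rw [add_jmul, add_jmul, tr_add, tr_add, ← tr_assoc, ← tr_assoc, smul_jmul, tr_smul, hone]
  rcases lt_or_ge s 1 with hs1 | hs1
  · -- the case s < 1
    set ω : Fin 3 → ℝ := fun i => m i ^ (1 - s) with hω
    have hωpos : ∀ i, 0 < ω i := fun i => Real.rpow_pos_of_pos (hm i) _
    have hωinv : (fun i => (ω i)⁻¹) = fun i => m i ^ (s - 1) := by
      ext i
      rw [hω, ← Real.rpow_neg (hm i).le]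
      congr 1; ring
    have k1 := key a' a v S hS ω hωpos
    have k2 := key b' b v S hS ω hωpos
    have k3 := key (Real.sqrt ε • one) (Real.sqrt ε • one) v S hS ω hωpos
    rw [hωinv] at k1 k2 k3
    have hss : Real.sqrt ε * Real.sqrt ε = ε := Real.mul_self_sqrt hε.le
    have e3 : jmul (Real.sqrt ε • one) (jmul (Real.sqrt ε • one) v) = ε • v := by
      rw [smul_jmul, smul_jmul, jmul_smul, smul_smul, hss, hone, hone]
    have e4 : jmul (Real.sqrt ε • one) (Real.sqrt ε • one) = ε • one := by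
      rw [smul_jmul, jmul_smul, smul_smul, hss, hone]
    rw [e3, e4, tr_smul] at k3
    have hsum : 2 * (tr (jmul a' (jmul a v)) + tr (jmul b' (jmul b v)) + ε * tr v)
        ≤ tr (jmul (jmul a' a' + jmul b' b' + ε • one) (S (dg fun i => m i ^ (s - 1))))
          + tr (jmul (jmul a a + jmul b b + ε • one) (U v (S (dg ω)))) := by
      rw [add_jmul, add_jmul, tr_add, tr_add, add_jmul, add_jmul, tr_add, tr_add]
      linarith
    rw [h, h', ← hS.1, jmul_dg_dg, hS.tr, tr_dg (fun i => m i * m i ^ (s - 1)), tr_U_symm, hv,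
      U_dg_dg] at hsum
    have e5 : ∑ i, m i * m i ^ (s - 1) = ∑ i, m i ^ s := by
      refine Finset.sum_congr rfl fun i _ => ?_
      rw [← Real.rpow_one_add' (hm i).le (by linarith)]
      congr 1; ring
    have e6 : (fun i => l i ^ (s - 1) * l i ^ (s - 1) * l i) = fun i => l i ^ (2 * s - 1) := by
      ext i
      have h1 : l i ^ (2 * s - 1) = l i ^ ((s - 1) + (s - 1) + 1) := by congr 1; ring
      rw [h1, Real.rpow_add (hl i), Real.rpow_add (hl i), Real.rpow_one]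
    rw [e5, e6] at hsum
    have hy := young S hS l m hl hm (2 * s - 1) (1 - s) s (by linarith) (by linarith) hs0 (by ring)
    rw [hLHS]
    have e7 : (1 / (2 * s)) * ∑ j, m j ^ s + (1 - 1 / (2 * s)) * ∑ i, l i ^ s
        = (1 / 2) * (∑ j, m j ^ s + ((2 * s - 1) / s * ∑ i, l i ^ s + (1 - s) / s * ∑ j, m j ^ s)) := by
      field_simp
      ring
    rw [e7]
    linarith
  · -- the case 1 ≤ s
    have hν : ∀ i, 0 ≤ l i ^ (s - 1) := fun i => Real.rpow_nonneg (hl i).le _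
    have k1 := key_ge_one a' a _ hν
    have k2 := key_ge_one b' b _ hν
    rw [← hv] at k1 k2
    have hsum : 2 * (tr (jmul a' (jmul a v)) + tr (jmul b' (jmul b v)) + ε * tr v)
        ≤ tr (jmul (jmul a' a' + jmul b' b' + ε • one) v)
          + tr (jmul (jmul a a + jmul b b + ε • one) v) := by
      rw [add_jmul, add_jmul, tr_add, tr_add, add_jmul, add_jmul, tr_add, tr_add, smul_jmul,
        tr_smul, hone]
      linarith
    rw [h, h', hv, jmul_dg_dg, tr_dg (fun i => l i * l i ^ (s - 1)), jmul_comm (S (dg m))] at hsum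
    have hy := young S hS l m hl hm (s - 1) 1 s (by linarith) (by norm_num) hs0 (by ring)
    simp only [Real.rpow_one] at hy
    have e5 : ∑ i, l i * l i ^ (s - 1) = ∑ i, l i ^ s := by
      refine Finset.sum_congr rfl fun i _ => ?_
      rw [← Real.rpow_one_add' (hl i).le (by linarith)]
      congr 1; ring
    rw [e5] at hsum
    rw [hLHS, hv]
    have e7 : (1 / (2 * s)) * ∑ j, m j ^ s + (1 - 1 / (2 * s)) * ∑ i, l i ^ s
        = (1 / 2) * (((s - 1) / s * ∑ i, l i ^ s + 1 / s * ∑ j, m j ^ s) + ∑ i, l i ^ s) := by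
      field_simp
      ring
    rw [e7]
    linarith

/-- Convexity of `(a, b) ↦ tr((a² + b² + ε)^s)` for `s ≥ 1/2`. -/
lemma convex_eps (s : ℝ) (hs : 1 / 2 ≤ s) (ε : ℝ) (hε : 0 < ε) (a₁ b₁ a₂ b₂ : Alb) (t : ℝ)
    (ht0 : 0 ≤ t) (ht1 : t ≤ 1) (T T₁ T₂ : Alb →ₗ[ℝ] Alb) (hT : IsAut T) (hT₁ : IsAut T₁)
    (hT₂ : IsAut T₂) (l l₁ l₂ : Fin 3 → ℝ) (hl : ∀ i, 0 < l i) (hl₁ : ∀ i, 0 < l₁ i)
    (hl₂ : ∀ i, 0 < l₂ i)
    (h : jmul (t • a₁ + (1 - t) • a₂) (t • a₁ + (1 - t) • a₂)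
      + jmul (t • b₁ + (1 - t) • b₂) (t • b₁ + (1 - t) • b₂) + ε • one = T (dg l))
    (h₁ : jmul a₁ a₁ + jmul b₁ b₁ + ε • one = T₁ (dg l₁))
    (h₂ : jmul a₂ a₂ + jmul b₂ b₂ + ε • one = T₂ (dg l₂)) :
    ∑ i, l i ^ s ≤ t * ∑ i, l₁ i ^ s + (1 - t) * ∑ i, l₂ i ^ s := by
  have hs0 : 0 < s := by linarith
  obtain ⟨R, hR, hRT, _⟩ := hT.exists_inv
  have g : jmul (R (t • a₁ + (1 - t) • a₂)) (R (t • a₁ + (1 - t) • a₂))
      + jmul (R (t • b₁ + (1 - t) • b₂)) (R (t • b₁ + (1 - t) • b₂)) + ε • one = dg l := by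
    have := congrArg R h
    rw [hRT, map_add, map_add, map_smul, hR.1, hR.1, hR.2] at this
    exact this
  have g₁ : jmul (R a₁) (R a₁) + jmul (R b₁) (R b₁) + ε • one = (R.comp T₁) (dg l₁) := by
    have := congrArg R h₁
    rw [map_add, map_add, map_smul, hR.1, hR.1, hR.2] at this
    exact this
  have g₂ : jmul (R a₂) (R a₂) + jmul (R b₂) (R b₂) + ε • one = (R.comp T₂) (dg l₂) := by
    have := congrArg R h₂
    rw [map_add, map_add, map_smul, hR.1, hR.1, hR.2] at this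
    exact this
  have m₁ := main_ineq s hs ε hε _ _ _ _ _ (hR.comp hT₁) l l₁ hl hl₁ g g₁
  have m₂ := main_ineq s hs ε hε _ _ _ _ _ (hR.comp hT₂) l l₂ hl hl₂ g g₂
  set v := dg fun i => l i ^ (s - 1) with hv
  have key : t * tr (jmul (jmul (R a₁) (R (t • a₁ + (1 - t) • a₂))
        + jmul (R b₁) (R (t • b₁ + (1 - t) • b₂)) + ε • one) v)
      + (1 - t) * tr (jmul (jmul (R a₂) (R (t • a₁ + (1 - t) • a₂))
        + jmul (R b₂) (R (t • b₁ + (1 - t) • b₂)) + ε • one) v) = ∑ i, l i ^ s := by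
    have e1 : t * tr (jmul (jmul (R a₁) (R (t • a₁ + (1 - t) • a₂))
        + jmul (R b₁) (R (t • b₁ + (1 - t) • b₂)) + ε • one) v)
      + (1 - t) * tr (jmul (jmul (R a₂) (R (t • a₁ + (1 - t) • a₂))
        + jmul (R b₂) (R (t • b₁ + (1 - t) • b₂)) + ε • one) v)
      = tr (jmul (jmul (R (t • a₁ + (1 - t) • a₂)) (R (t • a₁ + (1 - t) • a₂))
        + jmul (R (t • b₁ + (1 - t) • b₂)) (R (t • b₁ + (1 - t) • b₂)) + ε • one) v) := by
      have f1 : R (t • a₁ + (1 - t) • a₂) = t • R a₁ + (1 - t) • R a₂ := by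
        rw [map_add, map_smul, map_smul]
      have f2 : R (t • b₁ + (1 - t) • b₂) = t • R b₁ + (1 - t) • R b₂ := by
        rw [map_add, map_smul, map_smul]
      set A := R (t • a₁ + (1 - t) • a₂) with hA
      set B := R (t • b₁ + (1 - t) • b₂) with hB
      have f3 : jmul A A = t • jmul (R a₁) A + (1 - t) • jmul (R a₂) A := by
        calc jmul A A = jmul (t • R a₁ + (1 - t) • R a₂) A := by rw [← f1]
          _ = _ := by rw [add_jmul, smul_jmul, smul_jmul]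
      have f4 : jmul B B = t • jmul (R b₁) B + (1 - t) • jmul (R b₂) B := by
        calc jmul B B = jmul (t • R b₁ + (1 - t) • R b₂) B := by rw [← f2]
          _ = _ := by rw [add_jmul, smul_jmul, smul_jmul]
      rw [f3, f4]
      simp only [add_jmul, smul_jmul, tr_add, tr_smul]
      ring
    rw [e1, g, hv, jmul_dg_dg, tr_dg]
    refine Finset.sum_congr rfl fun i _ => ?_
    rw [← Real.rpow_one_add' (hl i).le (by linarith)]
    congr 1; ring
  have hm1 := mul_le_mul_of_nonneg_left m₁ ht0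
  have hm2 := mul_le_mul_of_nonneg_left m₂ (sub_nonneg.mpr ht1)
  have hfin : ∑ i, l i ^ s ≤ t * ((1 / (2 * s)) * ∑ j, l₁ j ^ s + (1 - 1 / (2 * s)) * ∑ i, l i ^ s)
      + (1 - t) * ((1 / (2 * s)) * ∑ j, l₂ j ^ s + (1 - 1 / (2 * s)) * ∑ i, l i ^ s) := by
    rw [← key]
    rw [key]
    linarith
  have h3 : (1 / (2 * s)) * ∑ i, l i ^ s
      ≤ (1 / (2 * s)) * (t * ∑ i, l₁ i ^ s + (1 - t) * ∑ i, l₂ i ^ s) := by
    linarith
  exact le_of_mul_le_mul_left h3 (by positivity)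

end Pool.Agent.Lib.MP_de6bc3_an
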