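import Pool.Agent.Lib.MP_de6bc3_an.Aut

set_option autoImplicit false

open scoped Quaternion

namespace Pool.Agent.Lib.MP_de6bc3_an

open Oct

lemma continuous_mul : Continuous fun p : Oct × Oct => mul p.1 p.2 := by
  unfold mul
  fun_prop

lemma continuous_apply2 (i j : Fin 3) : Continuous fun X : Alb => X.1 i j := by
  have h1 : Continuous fun X : Alb => X.1 := continuous_subtype_val
  have h2 : Continuous fun X : Mat => X i := continuous_apply i
  have h3 : Continuous fun X : Fin 3 → Oct => X j := continuous_apply j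
  exact h3.comp (h2.comp h1)

lemma continuous_re : Continuous re := by
  unfold re
  exact Quaternion.continuous_re.comp continuous_fst

lemma continuous_jmul : Continuous fun p : Alb × Alb => jmul p.1 p.2 := by
  apply Continuous.subtype_mk
  refine continuous_pi fun i => continuous_pi fun j => ?_
  have h : ∀ (f g : Alb × Alb → Oct), Continuous f → Continuous g →
      Continuous fun p => mul (f p) (g p) := fun f g hf hg =>
    continuous_mul.comp (hf.prodMk hg)
  have h1 : ∀ i j : Fin 3, Continuous fun p : Alb × Alb => p.1.1 i j := fun i j =>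
    (continuous_apply2 i j).comp continuous_fst
  have h2 : ∀ i j : Fin 3, Continuous fun p : Alb × Alb => p.2.1 i j := fun i j =>
    (continuous_apply2 i j).comp continuous_snd
  have h3 : Continuous fun p : Alb × Alb => ∑ k, mul (p.1.1 i k) (p.2.1 k j) :=
    continuous_finset_sum _ fun k _ => h _ _ (h1 i k) (h2 k j)
  have h4 : Continuous fun p : Alb × Alb => ∑ k, mul (p.2.1 i k) (p.1.1 k j) :=
    continuous_finset_sum _ fun k _ => h _ _ (h2 i k) (h1 k j)
  exact (h3.add h4).const_smul (1 / 2 : ℝ)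

lemma Continuous.jmul' {α : Type*} [TopologicalSpace α] {f g : α → Alb} (hf : Continuous f)
    (hg : Continuous g) : Continuous fun a => jmul (f a) (g a) :=
  Continuous.comp (g := fun p : Alb × Alb => jmul p.1 p.2) (f := fun a => (f a, g a))
    continuous_jmul (hf.prodMk hg)

lemma continuous_tr : Continuous tr := by
  have h : ∀ i : Fin 3, Continuous fun X : Alb => re (X.1 i i) := fun i =>
    continuous_re.comp (continuous_apply2 i i)
  unfold tr
  exact continuous_finset_sum _ fun i _ => h i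

lemma nsq_eq_norm (x : Oct) : nsq x = ‖x.1‖ ^ 2 + ‖x.2‖ ^ 2 := by
  have h : ∀ q : ℍ[ℝ], ‖q‖ ^ 2 = q.re ^ 2 + q.imI ^ 2 + q.imJ ^ 2 + q.imK ^ 2 := by
    intro q
    rw [sq, ← Quaternion.normSq_eq_norm_mul_self, Quaternion.normSq_def']
  rw [h, h]
  simp only [nsq, ip, c0, c1, c2, c3, c4, c5, c6, c7]
  ring

lemma norm_sq_le_nsq (x : Oct) : ‖x‖ ^ 2 ≤ nsq x := by
  rw [nsq_eq_norm, Prod.norm_def]
  rcases max_choice ‖x.1‖ ‖x.2‖ with h | h <;> rw [h] <;> nlinarith [sq_nonneg ‖x.1‖, sq_nonneg ‖x.2‖]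

lemma nsq_le (x : Oct) : nsq x ≤ 2 * ‖x‖ ^ 2 := by
  rw [nsq_eq_norm]
  have h1 : ‖x.1‖ ≤ ‖x‖ := norm_fst_le x
  have h2 : ‖x.2‖ ≤ ‖x‖ := norm_snd_le x
  have := norm_nonneg x.1
  have := norm_nonneg x.2
  nlinarith

lemma norm_entry_le (X : Alb) (i j : Fin 3) : ‖X.1 i j‖ ≤ ‖X‖ := by
  have h : ‖X‖ = ‖X.1‖ := rfl
  rw [h]
  exact (norm_le_pi_norm (X.1 i) j).trans (norm_le_pi_norm X.1 i)

lemma norm_sq_le (X : Alb) : ‖X‖ ^ 2 ≤ tr (jmul X X) := by
  have h0 : 0 ≤ tr (jmul X X) := by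
    rw [tr_jmul]
    exact Finset.sum_nonneg fun i _ => Finset.sum_nonneg fun j _ => nsq_nonneg _
  have h : ‖X‖ ≤ Real.sqrt (tr (jmul X X)) := by
    have h1 : ‖X‖ = ‖X.1‖ := rfl
    rw [h1, pi_norm_le_iff_of_nonneg (Real.sqrt_nonneg _)]
    intro i
    rw [pi_norm_le_iff_of_nonneg (Real.sqrt_nonneg _)]
    intro j
    apply Real.le_sqrt_of_sq_le
    refine (norm_sq_le_nsq _).trans ?_
    rw [tr_jmul]
    refine le_trans ?_ (Finset.single_le_sum (f := fun i => ∑ j, ip (X.1 i j) (X.1 i j))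
      (fun i _ => Finset.sum_nonneg fun j _ => nsq_nonneg _) (Finset.mem_univ i))
    exact Finset.single_le_sum (f := fun j => ip (X.1 i j) (X.1 i j))
      (fun j _ => nsq_nonneg _) (Finset.mem_univ j)
  calc ‖X‖ ^ 2 ≤ (Real.sqrt (tr (jmul X X))) ^ 2 := pow_le_pow_left₀ (norm_nonneg _) h 2
    _ = _ := Real.sq_sqrt h0

lemma tr_jmul_self_le (X : Alb) : tr (jmul X X) ≤ 18 * ‖X‖ ^ 2 := by
  rw [tr_jmul]
  have : ∀ i j, ip (X.1 i j) (X.1 i j) ≤ 2 * ‖X‖ ^ 2 := by
    intro i j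
    refine (nsq_le _).trans ?_
    have := pow_le_pow_left₀ (norm_nonneg _) (norm_entry_le X i j) 2
    linarith
  calc _ ≤ ∑ i : Fin 3, ∑ j : Fin 3, 2 * ‖X‖ ^ 2 :=
        Finset.sum_le_sum fun i _ => Finset.sum_le_sum fun j _ => this i j
    _ = 18 * ‖X‖ ^ 2 := by simp; ring

lemma tr_jmul_self_nonneg (X : Alb) : 0 ≤ tr (jmul X X) := by
  rw [tr_jmul]
  exact Finset.sum_nonneg fun i _ => Finset.sum_nonneg fun j _ => nsq_nonneg _

lemma IsAut.norm_le {T : Alb →ₗ[ℝ] Alb} (hT : IsAut T) (X : Alb) : ‖T X‖ ≤ 5 * ‖X‖ := by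
  have h1 := norm_sq_le (T X)
  rw [← hT.1, hT.tr] at h1
  have h2 := tr_jmul_self_le X
  have h3 : ‖T X‖ ^ 2 ≤ (5 * ‖X‖) ^ 2 := by nlinarith [sq_nonneg ‖X‖]
  exact (sq_le_sq₀ (norm_nonneg _) (by positivity)).mp h3

instance instFiniteDimensionalAlb : FiniteDimensional ℝ Alb :=
  inferInstanceAs (FiniteDimensional ℝ albSub)

/-- The compact set of unital Jordan endomorphisms. -/
def AutSet : Set (Alb → Alb) := {f | ∃ T : Alb →ₗ[ℝ] Alb, IsAut T ∧ f = T}

lemma isCompact_AutSet : IsCompact AutSet := by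
  have hp : ProperSpace Alb := FiniteDimensional.proper ℝ Alb
  have hev : ∀ X : Alb, Continuous fun f : Alb → Alb => f X := fun X => continuous_apply X
  have hclosed : IsClosed AutSet := by
    have h1 : AutSet = (⋂ X : Alb, ⋂ Y : Alb, {f : Alb → Alb | f (jmul X Y) = jmul (f X) (f Y)})
        ∩ {f | f one = one} ∩ (⋂ X : Alb, ⋂ Y : Alb, {f : Alb → Alb | f (X + Y) = f X + f Y})
        ∩ (⋂ r : ℝ, ⋂ X : Alb, {f : Alb → Alb | f (r • X) = r • f X}) := by
      ext f
      simp only [AutSet, IsAut, Set.mem_setOf_eq, Set.mem_inter_iff, Set.mem_iInter]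
      constructor
      · rintro ⟨T, ⟨h1, h2⟩, rfl⟩
        exact ⟨⟨⟨h1, h2⟩, fun X Y => map_add T X Y⟩, fun r X => map_smul T r X⟩
      · rintro ⟨⟨⟨h1, h2⟩, h3⟩, h4⟩
        exact ⟨{ toFun := f, map_add' := h3, map_smul' := h4 }, ⟨h1, h2⟩, rfl⟩
    have c1 : ∀ X Y : Alb, IsClosed {f : Alb → Alb | f (jmul X Y) = jmul (f X) (f Y)} := by
      intro X Y
      have hA : Continuous fun f : Alb → Alb => f (jmul X Y) := hev (jmul X Y)
      have hC : Continuous fun f : Alb → Alb => jmul (f X) (f Y) :=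
        Continuous.jmul' (hev X) (hev Y)
      exact isClosed_eq hA hC
    have c2 : IsClosed {f : Alb → Alb | f one = one} := by
      have hA : Continuous fun f : Alb → Alb => f one := hev one
      exact isClosed_eq hA continuous_const
    have c3 : ∀ X Y : Alb, IsClosed {f : Alb → Alb | f (X + Y) = f X + f Y} := by
      intro X Y
      have hA : Continuous fun f : Alb → Alb => f (X + Y) := hev (X + Y)
      have hC : Continuous fun f : Alb → Alb => f X + f Y := (hev X).add (hev Y)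
      exact isClosed_eq hA hC
    have c4 : ∀ (r : ℝ) (X : Alb), IsClosed {f : Alb → Alb | f (r • X) = r • f X} := by
      intro r X
      have hA : Continuous fun f : Alb → Alb => f (r • X) := hev (r • X)
      have hC : Continuous fun f : Alb → Alb => r • f X := (hev X).const_smul r
      exact isClosed_eq hA hC
    rw [h1]
    exact (((isClosed_iInter fun X => isClosed_iInter fun Y => c1 X Y).inter c2).inter
      (isClosed_iInter fun X => isClosed_iInter fun Y => c3 X Y)).inter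
      (isClosed_iInter fun r => isClosed_iInter fun X => c4 r X)
  have hK : IsCompact (Set.pi Set.univ fun X : Alb => Metric.closedBall (0 : Alb) (5 * ‖X‖)) :=
    isCompact_univ_pi fun X => isCompact_closedBall _ _
  refine hK.of_isClosed_subset hclosed ?_
  rintro f ⟨T, hT, rfl⟩ X _
  rw [mem_closedBall_zero_iff]
  exact hT.norm_le X

/-- sum of squares of the diagonal entries -/
noncomputable def dsq (X : Alb) : ℝ := ∑ i, re (X.1 i i) ^ 2

lemma exists_increase (X : Alb) (h : X.1 0 1 ≠ 0) :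
    ∃ S : Alb →ₗ[ℝ] Alb, IsAut S ∧ dsq X < dsq (S X) := by
  obtain ⟨u, hu, hu2⟩ := exists_unit_mul (X.1 0 1)
  set r := Real.sqrt (nsq (X.1 0 1)) with hr
  have hrpos : 0 < r := by
    apply Real.sqrt_pos.mpr
    refine lt_of_le_of_ne (nsq_nonneg _) ?_
    intro h0
    exact h (nsq_eq_zero h0.symm)
  set d0 := re (X.1 0 0) with hd0
  set d1 := re (X.1 1 1) with hd1
  set z : ℂ := ⟨(d0 - d1) / 2, r⟩ with hz
  have hzne : z ≠ 0 := by
    intro h0
    have := congrArg Complex.im h0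
    simp [hz] at this
    linarith
  have hznorm : 0 < ‖z‖ := norm_pos_iff.mpr hzne
  have hcos : ‖z‖ * Real.cos z.arg = (d0 - d1) / 2 := Complex.norm_mul_cos_arg z
  have hsin : ‖z‖ * Real.sin z.arg = r := Complex.norm_mul_sin_arg z
  have hnsq : ‖z‖ ^ 2 = ((d0 - d1) / 2) ^ 2 + r ^ 2 := by
    rw [Complex.sq_norm, Complex.normSq_apply]; simp [hz]; ring
  set c := Real.cos (z.arg / 2) with hc
  set s := Real.sin (z.arg / 2) with hs
  have hcs : c ^ 2 + s ^ 2 = 1 := Real.cos_sq_add_sin_sq _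
  have hcos2 : Real.cos z.arg = c ^ 2 - s ^ 2 := by
    have : z.arg = 2 * (z.arg / 2) := by ring
    rw [this, Real.cos_two_mul']
  have hsin2 : Real.sin z.arg = 2 * s * c := by
    have : z.arg = 2 * (z.arg / 2) := by ring
    rw [this, Real.sin_two_mul]
  refine ⟨(rot (rotR c s)).comp (gauge u), (isAut_rotR c s hcs).comp (isAut_gauge u hu), ?_⟩
  set Y := gauge u X with hY
  have hY00 : re (Y.1 0 0) = d0 := rfl
  have hY11 : re (Y.1 1 1) = d1 := rfl
  have hY22 : re (Y.1 2 2) = re (X.1 2 2) := rfl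
  have hY01 : re (Y.1 0 1) = r := by
    have : Y.1 0 1 = ofReal r := hu2
    rw [this, re_ofReal]
  have hY10 : re (Y.1 1 0) = r := by rw [herm Y 0 1, re_conj, hY01]
  have e0 : re (((rot (rotR c s)).comp (gauge u) X).1 0 0)
      = c ^ 2 * d0 + s ^ 2 * d1 + 2 * s * c * r := by
    rw [LinearMap.comp_apply, ← hY, rot_apply]
    simp only [Fin.sum_univ_three, re_add, re_smul]
    simp [rotR, hY00, hY11, hY01, hY10, re_smul, re_add]
    ring
  have e1 : re (((rot (rotR c s)).comp (gauge u) X).1 1 1)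
      = s ^ 2 * d0 + c ^ 2 * d1 - 2 * s * c * r := by
    rw [LinearMap.comp_apply, ← hY, rot_apply]
    simp only [Fin.sum_univ_three, re_add, re_smul]
    simp [rotR, hY00, hY11, hY01, hY10, re_smul, re_add]
    ring
  have e2 : re (((rot (rotR c s)).comp (gauge u) X).1 2 2) = re (X.1 2 2) := by
    rw [LinearMap.comp_apply, ← hY, rot_apply]
    simp only [Fin.sum_univ_three, re_add, re_smul]
    simp [rotR, hY22, re_smul, re_add]
  unfold dsq
  rw [Fin.sum_univ_three, Fin.sum_univ_three, e0, e1, e2, ← hd0, ← hd1]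
  have f0 : c ^ 2 * d0 + s ^ 2 * d1 + 2 * s * c * r = (d0 + d1) / 2 + ‖z‖ := by
    have g1 : c ^ 2 * d0 + s ^ 2 * d1 = (d0 + d1) / 2 * (c ^ 2 + s ^ 2)
      + (d0 - d1) / 2 * (c ^ 2 - s ^ 2) := by ring
    rw [g1, hcs, ← hcos2, ← hsin2]
    have g2 : (d0 - d1) / 2 * Real.cos z.arg + Real.sin z.arg * r = ‖z‖ := by
      rw [← hcos, ← hsin]
      have := Real.cos_sq_add_sin_sq z.arg
      linear_combination ‖z‖ * this
    linarith
  have f1 : s ^ 2 * d0 + c ^ 2 * d1 - 2 * s * c * r = (d0 + d1) / 2 - ‖z‖ := by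
    have g1 : s ^ 2 * d0 + c ^ 2 * d1 = (d0 + d1) * (c ^ 2 + s ^ 2)
      - (c ^ 2 * d0 + s ^ 2 * d1) := by ring
    rw [g1, hcs]
    linarith
  rw [f0, f1]
  have : 0 < r ^ 2 := by positivity
  nlinarith

lemma dsq_cyc (X : Alb) : dsq (cyc X) = dsq X := by
  unfold dsq
  rw [Fin.sum_univ_three, Fin.sum_univ_three, cyc_apply, cyc_apply, cyc_apply]
  have h1 : (0 : Fin 3) + 1 = 1 := rfl
  have h2 : (1 : Fin 3) + 1 = 2 := rfl
  have h3 : (2 : Fin 3) + 1 = 0 := rfl
  rw [h1, h2, h3]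
  ring

lemma exists_increase' (X : Alb) (h : ¬ (X.1 0 1 = 0 ∧ X.1 1 2 = 0 ∧ X.1 2 0 = 0)) :
    ∃ S : Alb →ₗ[ℝ] Alb, IsAut S ∧ dsq X < dsq (S X) := by
  by_cases h1 : X.1 0 1 = 0
  · by_cases h2 : X.1 1 2 = 0
    · have h3 : X.1 2 0 ≠ 0 := fun h3 => h ⟨h1, h2, h3⟩
      have h4 : (cyc (cyc X)).1 0 1 ≠ 0 := by
        rw [cyc_apply, cyc_apply]; exact h3
      obtain ⟨S, hS, hS2⟩ := exists_increase _ h4
      refine ⟨S.comp (cyc.comp cyc), hS.comp (isAut_cyc.comp isAut_cyc), ?_⟩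
      rw [dsq_cyc, dsq_cyc] at hS2
      exact hS2
    · have h4 : (cyc X).1 0 1 ≠ 0 := by
        rw [cyc_apply]; exact h2
      obtain ⟨S, hS, hS2⟩ := exists_increase _ h4
      refine ⟨S.comp cyc, hS.comp isAut_cyc, ?_⟩
      rw [dsq_cyc] at hS2
      exact hS2
  · exact exists_increase X h1

lemma continuous_dsq : Continuous dsq := by
  unfold dsq
  exact continuous_finset_sum _ fun i _ => (continuous_re.comp (continuous_apply2 i i)).pow 2

/-- The spectral theorem, first form. -/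
lemma exists_diag' (X : Alb) : ∃ T : Alb →ₗ[ℝ] Alb, IsAut T ∧ ∃ l, T X = dg l := by
  have hne : AutSet.Nonempty := ⟨_, LinearMap.id, IsAut.id, rfl⟩
  have hcont : Continuous fun f : Alb → Alb => dsq (f X) :=
    continuous_dsq.comp (continuous_apply X)
  obtain ⟨f, ⟨T, hT, rfl⟩, hmax⟩ := isCompact_AutSet.exists_isMaxOn hne hcont.continuousOn
  refine ⟨T, hT, ?_⟩
  have hoff : (T X).1 0 1 = 0 ∧ (T X).1 1 2 = 0 ∧ (T X).1 2 0 = 0 := by
    by_contra hcon
    obtain ⟨S, hS, hlt⟩ := exists_increase' (T X) hcon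
    have hmem : (S.comp T : Alb → Alb) ∈ AutSet := ⟨S.comp T, hS.comp hT, rfl⟩
    have := hmax hmem
    simp only [Set.mem_setOf_eq] at this
    exact absurd hlt (not_lt.mpr this)
  refine ⟨fun i => re ((T X).1 i i), ?_⟩
  have h0 : ∀ l (i j : Fin 3), (dg l).1 i j = if i = j then ofReal (l i) else 0 :=
    fun _ _ _ => rfl
  apply ext6
  · change re ((T X).1 0 0) = _
    rw [h0, if_pos rfl, re_ofReal]
  · change re ((T X).1 1 1) = _
    rw [h0, if_pos rfl, re_ofReal]
  · change re ((T X).1 2 2) = _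
    rw [h0, if_pos rfl, re_ofReal]
  · change (T X).1 0 1 = _
    rw [h0, if_neg (by decide), hoff.1]
  · change (T X).1 1 2 = _
    rw [h0, if_neg (by decide), hoff.2.1]
  · change (T X).1 2 0 = _
    rw [h0, if_neg (by decide), hoff.2.2]

lemma IsAut.injective {T : Alb →ₗ[ℝ] Alb} (hT : IsAut T) : Function.Injective T := by
  rw [injective_iff_map_eq_zero]
  intro X hX
  have h1 := norm_sq_le X
  have h2 : Pool.Agent.Lib.MP_de6bc3_an.tr (jmul X X) = 0 := by
    rw [← hT.tr, hT.1, hX]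
    have := smul_jmul 0 (0 : Alb) 0
    rw [zero_smul, zero_smul] at this
    rw [this]
    exact map_zero trL
  rw [h2] at h1
  have : ‖X‖ = 0 := by nlinarith [norm_nonneg X]
  exact norm_eq_zero.mp this

lemma IsAut.exists_inv {T : Alb →ₗ[ℝ] Alb} (hT : IsAut T) :
    ∃ S : Alb →ₗ[ℝ] Alb, IsAut S ∧ (∀ X, S (T X) = X) ∧ (∀ X, T (S X) = X) := by
  set E := LinearEquiv.ofInjectiveEndo T hT.injective with hE
  have h1 : ∀ X, E X = T X := fun _ => rfl
  have hST : ∀ X, E.symm (T X) = X := fun X => by rw [← h1, E.symm_apply_apply]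
  have hTS : ∀ X, T (E.symm X) = X := fun X => by rw [← h1, E.apply_symm_apply]
  refine ⟨E.symm, ⟨fun X Y => ?_, ?_⟩, hST, hTS⟩
  · apply hT.injective
    simp only [LinearEquiv.coe_coe]
    rw [hTS, hT.1, hTS, hTS]
  · apply hT.injective
    simp only [LinearEquiv.coe_coe]
    rw [hTS, hT.2]

/-- The spectral theorem. -/
lemma exists_diag (X : Alb) : ∃ T : Alb →ₗ[ℝ] Alb, IsAut T ∧ ∃ l, X = T (dg l) := by
  obtain ⟨S, hS, l, hl⟩ := exists_diag' X
  obtain ⟨T, hT, h1, _⟩ := hS.exists_inv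
  exact ⟨T, hT, l, by rw [← hl, h1]⟩

end Pool.Agent.Lib.MP_de6bc3_an
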