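import Pool.Agent.Lib.MP_de6bc3_an.Diag

set_option autoImplicit false

open scoped Quaternion

namespace Pool.Agent.Lib.MP_de6bc3_an

open Oct

/-- The quadratic operator `U_v w = 2 v ∘ (v ∘ w) - (v ∘ v) ∘ w`. -/
noncomputable def U (v w : Alb) : Alb := (2 : ℝ) • jmul v (jmul v w) - jmul (jmul v v) w

lemma tr_jmul_dg (X : Alb) (l : Fin 3 → ℝ) : tr (jmul X (dg l)) = ∑ i, l i * re (X.1 i i) := by
  unfold tr
  refine Finset.sum_congr rfl fun i _ => ?_
  rw [jmul_dg_apply, re_smul]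
  ring

lemma IsAut.map_U {T : Alb →ₗ[ℝ] Alb} (hT : IsAut T) (v w : Alb) : T (U v w) = U (T v) (T w) := by
  unfold U
  rw [map_sub, map_smul, hT.1, hT.1, hT.1, hT.1]

lemma tr_U_symm (A B v : Alb) : tr (jmul A (U v B)) = tr (jmul (U v A) B) := by
  unfold U
  have h1 : jmul A ((2 : ℝ) • jmul v (jmul v B) - jmul (jmul v v) B)
      = (2 : ℝ) • jmul A (jmul v (jmul v B)) - jmul A (jmul (jmul v v) B) := by
    have := map_sub (jmulL A) ((2 : ℝ) • jmul v (jmul v B)) (jmul (jmul v v) B)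
    rw [jmulL_apply, jmulL_apply, jmulL_apply, jmul_smul] at this
    exact this
  have h2 : jmul ((2 : ℝ) • jmul v (jmul v A) - jmul (jmul v v) A) B
      = (2 : ℝ) • jmul (jmul v (jmul v A)) B - jmul (jmul (jmul v v) A) B := by
    have := map_sub (jmulL.flip B) ((2 : ℝ) • jmul v (jmul v A)) (jmul (jmul v v) A)
    rw [LinearMap.flip_apply, LinearMap.flip_apply, LinearMap.flip_apply, jmulL_apply, jmulL_apply,
      jmulL_apply, smul_jmul] at this
    exact this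
  rw [h1, h2, tr_sub, tr_sub, tr_smul, tr_smul]
  congr 1
  · congr 1
    rw [tr_assoc A v, jmul_comm A v, tr_assoc (jmul v A) v, jmul_comm (jmul v A) v]
  · rw [tr_assoc A (jmul v v), jmul_comm A (jmul v v)]

lemma U_dg_dg (l m : Fin 3 → ℝ) : U (dg l) (dg m) = dg (fun i => l i * l i * m i) := by
  unfold U
  rw [jmul_dg_dg, jmul_dg_dg, jmul_dg_dg, jmul_dg_dg]
  have h : dg (fun i => l i * (l i * m i)) = dg (fun i => l i * l i * m i) := by
    congr 1; ext i; ring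
  rw [h]
  module

lemma jmul_self_apply (v : Alb) (k l : Fin 3) :
    (jmul v v).1 k l = ∑ j, mul (v.1 k j) (v.1 j l) := by
  rw [jmul_apply, ← two_smul ℝ, smul_smul]
  norm_num

lemma sub_apply' (A B : Alb) (i j : Fin 3) : (A - B).1 i j = A.1 i j - B.1 i j := rfl
lemma add_apply' (A B : Alb) (i j : Fin 3) : (A + B).1 i j = A.1 i j + B.1 i j := rfl
lemma smul_apply' (r : ℝ) (A : Alb) (i j : Fin 3) : (r • A).1 i j = r • A.1 i j := rfl

lemma U_dg_apply (v : Alb) (ω : Fin 3 → ℝ) (k l : Fin 3) :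
    (U v (dg ω)).1 k l = ∑ j, ω j • mul (v.1 k j) (v.1 j l) := by
  unfold U
  rw [sub_apply', smul_apply', jmul_dg_apply, jmul_self_apply, jmul_apply]
  simp only [jmul_dg_apply, mul_smul, smul_mul]
  rw [Finset.smul_sum, smul_smul, ← Finset.sum_add_distrib, Finset.smul_sum,
    ← Finset.sum_sub_distrib]
  refine Finset.sum_congr rfl fun j _ => ?_
  module

lemma assoc_of (x y z : Oct) (h : (∃ r, x = ofReal r) ∨ (∃ r, y = ofReal r) ∨ y = conj x) :
    mul (mul x y) z = mul x (mul y z) := by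
  rcases h with ⟨r, rfl⟩ | ⟨r, rfl⟩ | rfl
  · rw [ofReal_mul, ofReal_mul, smul_mul]
  · rw [mul_ofReal, ofReal_mul, smul_mul, mul_smul]
  · have h1 := conj_mul_self (conj x)
    have h2 := conj_mul_mul (conj x) z
    rw [conj_conj] at h1 h2
    rw [h1, h2, ofReal_mul]

/-- The associativity condition satisfied after gauge fixing. -/
lemma gauge_assoc (a : Alb) (h01 : ∃ r, a.1 0 1 = ofReal r) (h12 : ∃ r, a.1 1 2 = ofReal r)
    (k i l : Fin 3) (y : Oct) :
    mul (mul (a.1 k i) (a.1 i l)) y = mul (a.1 k i) (mul (a.1 i l) y) := by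
  apply assoc_of
  have h10 : ∃ r, a.1 1 0 = ofReal r := by
    obtain ⟨r, hr⟩ := h01
    exact ⟨r, by rw [herm a 0 1, hr, conj_ofReal]⟩
  have h21 : ∃ r, a.1 2 1 = ofReal r := by
    obtain ⟨r, hr⟩ := h12
    exact ⟨r, by rw [herm a 1 2, hr, conj_ofReal]⟩
  by_cases hkl : l = k
  · right; right
    rw [hkl]; exact herm a k i
  by_cases hki : k = i
  · left
    rw [hki]; exact ⟨_, diag_real a i⟩
  by_cases hil : i = l
  · right; left
    rw [hil]; exact ⟨_, diag_real a l⟩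
  by_cases hi : i = 0
  · subst hi
    by_cases hk : k = 1
    · subst hk; left; exact h10
    · have hl : l = 1 := by
        revert hkl hki hil hk; revert k l; decide
      subst hl; right; left; exact h01
  by_cases hi1 : i = 1
  · subst hi1
    by_cases hk : k = 0
    · subst hk; left; exact h01
    · have hl : k = 2 := by omega
      subst hl; left; exact h21
  have hi2 : i = 2 := by omega
  subst hi2
  by_cases hk : k = 1
  · subst hk; left; exact h12
  · have hl : l = 1 := by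
      revert hkl hki hil hk; revert k l; decide
    subst hl; right; left; exact h21

lemma tr_sq_U (a v : Alb) (ω : Fin 3 → ℝ)
    (h01 : ∃ r, a.1 0 1 = ofReal r) (h12 : ∃ r, a.1 1 2 = ofReal r) :
    tr (jmul (jmul a a) (U v (dg ω)))
      = ∑ i, ∑ j, ω j * nsq (∑ k, mul (a.1 i k) (v.1 k j)) := by
  have hterm : ∀ i j k l : Fin 3, ip (mul (a.1 k i) (a.1 i l)) (mul (v.1 k j) (v.1 j l))
      = ip (mul (a.1 i k) (v.1 k j)) (mul (a.1 i l) (v.1 l j)) := by
    intro i j k l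
    rw [← re_mul_conj, conj_mul, ← re_mul_assoc, re_mul_conj, ← herm v j l,
      gauge_assoc a h01 h12, ip_mul_left, ← herm a k i, ip_comm]
  rw [tr_jmul]
  simp only [jmul_self_apply, U_dg_apply, sum_ip, ip_sum, ip_smul_right, hterm, Finset.mul_sum]
  have hR : ∀ i j, ω j * nsq (∑ k, mul (a.1 i k) (v.1 k j))
      = ∑ k, ∑ l, ω j * ip (mul (a.1 i k) (v.1 k j)) (mul (a.1 i l) (v.1 l j)) := by
    intro i j
    unfold nsq
    rw [sum_ip, Finset.mul_sum]
    refine Finset.sum_congr rfl fun k _ => ?_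
    rw [ip_sum, Finset.mul_sum]
  simp only [hR]
  calc ∑ k, ∑ l, ∑ j, ∑ i, ω j * ip (mul (a.1 i k) (v.1 k j)) (mul (a.1 i l) (v.1 l j))
      = ∑ k, ∑ j, ∑ l, ∑ i, ω j * ip (mul (a.1 i k) (v.1 k j)) (mul (a.1 i l) (v.1 l j)) :=
        Finset.sum_congr rfl fun k _ => Finset.sum_comm
    _ = ∑ j, ∑ k, ∑ l, ∑ i, ω j * ip (mul (a.1 i k) (v.1 k j)) (mul (a.1 i l) (v.1 l j)) :=
        Finset.sum_comm
    _ = ∑ j, ∑ k, ∑ i, ∑ l, ω j * ip (mul (a.1 i k) (v.1 k j)) (mul (a.1 i l) (v.1 l j)) :=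
        Finset.sum_congr rfl fun j _ => Finset.sum_congr rfl fun k _ => Finset.sum_comm
    _ = ∑ j, ∑ i, ∑ k, ∑ l, ω j * ip (mul (a.1 i k) (v.1 k j)) (mul (a.1 i l) (v.1 l j)) :=
        Finset.sum_congr rfl fun j _ => Finset.sum_comm
    _ = _ := Finset.sum_comm

lemma amgm (x y : Oct) (w : ℝ) (hw : 0 < w) : 2 * ip x y ≤ w⁻¹ * nsq x + w * nsq y := by
  have h := nsq_nonneg (x + (-w) • y)
  have h2 : nsq (x + (-w) • y) = nsq x - 2 * w * ip x y + w ^ 2 * nsq y := by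
    unfold nsq
    rw [ip_add_left, ip_add_right, ip_add_right, ip_smul_left, ip_smul_left, ip_smul_right,
      ip_smul_right, ip_comm y x]
    ring
  rw [h2] at h
  have h3 : 0 ≤ w⁻¹ * (nsq x - 2 * w * ip x y + w ^ 2 * nsq y) :=
    mul_nonneg (inv_nonneg.mpr hw.le) h
  have h4 : w⁻¹ * (nsq x - 2 * w * ip x y + w ^ 2 * nsq y)
      = w⁻¹ * nsq x - 2 * ip x y + w * nsq y := by
    field_simp
  linarith

lemma key_gauge (a' a v : Alb) (ω : Fin 3 → ℝ) (hω : ∀ i, 0 < ω i)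
    (h01 : ∃ r, a.1 0 1 = ofReal r) (h12 : ∃ r, a.1 1 2 = ofReal r) :
    2 * tr (jmul a' (jmul a v)) ≤ tr (jmul (jmul a' a') (dg fun i => (ω i)⁻¹))
      + tr (jmul (jmul a a) (U v (dg ω))) := by
  rw [tr_sq_U a v ω h01 h12]
  have hL : 2 * tr (jmul a' (jmul a v))
      = ∑ i, ∑ j, 2 * ip (a'.1 i j) (∑ k, mul (a.1 i k) (v.1 k j)) := by
    rw [tr_jmul]
    have h1 : ∀ i j, ip (a'.1 i j) ((jmul a v).1 i j)
        = (1 / 2) * ip (a'.1 i j) (∑ k, mul (a.1 i k) (v.1 k j))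
          + (1 / 2) * ip (a'.1 j i) (∑ k, mul (a.1 j k) (v.1 k i)) := by
      intro i j
      rw [jmul_apply, ip_smul_right, ip_add_right, _root_.mul_add]
      congr 2
      rw [herm a' i j, ← ip_conj (conj (a'.1 i j)), conj_conj, conj_sum]
      congr 1
      refine Finset.sum_congr rfl fun k _ => ?_
      rw [conj_mul, ← herm, ← herm]
    simp only [h1, Finset.sum_add_distrib]
    have h2 : ∑ i, ∑ j, (1 / 2) * ip (a'.1 j i) (∑ k, mul (a.1 j k) (v.1 k i))
        = ∑ i, ∑ j, (1 / 2) * ip (a'.1 i j) (∑ k, mul (a.1 i k) (v.1 k j)) := Finset.sum_comm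
    rw [h2]
    simp only [← Finset.mul_sum]
    ring
  have hR : tr (jmul (jmul a' a') (dg fun i => (ω i)⁻¹)) = ∑ i, ∑ j, (ω j)⁻¹ * nsq (a'.1 i j) := by
    rw [tr_jmul_dg, Finset.sum_comm]
    refine Finset.sum_congr rfl fun i _ => ?_
    rw [re_jmul_diag, Finset.mul_sum]
    refine Finset.sum_congr rfl fun j _ => ?_
    rw [herm a' i j, nsq_conj]
    rfl
  rw [hL, hR, ← Finset.sum_add_distrib]
  refine Finset.sum_le_sum fun i _ => ?_
  rw [← Finset.sum_add_distrib]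
  exact Finset.sum_le_sum fun j _ => amgm _ _ _ (hω j)

/-- The key inequality `2 tr(a'(a v)) ≤ tr(a'² w⁻¹) + tr(a² U_v w)` for positive `w = S(dg ω)`. -/
lemma key (a' a v : Alb) (S : Alb →ₗ[ℝ] Alb) (hS : IsAut S) (ω : Fin 3 → ℝ) (hω : ∀ i, 0 < ω i) :
    2 * tr (jmul a' (jmul a v)) ≤ tr (jmul (jmul a' a') (S (dg fun i => (ω i)⁻¹)))
      + tr (jmul (jmul a a) (U v (S (dg ω)))) := by
  obtain ⟨S', hS', h1, h2⟩ := hS.exists_inv
  obtain ⟨G, hG, hGd, hG01, hG12⟩ := exists_gauge (S' a)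
  have hGS : IsAut (G.comp S') := hG.comp hS'
  have hd : ∀ l, (G.comp S') (S (dg l)) = dg l := by
    intro l
    rw [LinearMap.comp_apply, h1, hGd]
  have e1 : tr (jmul a' (jmul a v))
      = tr (jmul ((G.comp S') a') (jmul ((G.comp S') a) ((G.comp S') v))) := by
    rw [← hGS.1, ← hGS.1, hGS.tr]
  have e2 : tr (jmul (jmul a' a') (S (dg fun i => (ω i)⁻¹)))
      = tr (jmul (jmul ((G.comp S') a') ((G.comp S') a')) (dg fun i => (ω i)⁻¹)) := by
    rw [← hGS.tr, hGS.1, hGS.1, hd]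
  have e3 : tr (jmul (jmul a a) (U v (S (dg ω))))
      = tr (jmul (jmul ((G.comp S') a) ((G.comp S') a)) (U ((G.comp S') v) (dg ω))) := by
    rw [← hGS.tr, hGS.1, hGS.1, hGS.map_U, hd]
  rw [e1, e2, e3]
  exact key_gauge _ _ _ ω hω hG01 hG12

end Pool.Agent.Lib.MP_de6bc3_an
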