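import Pool.Agent.Lib.MP_de6bc3_an.Pow

set_option autoImplicit false

open scoped Quaternion ENNReal

namespace Pool.Agent.Lib.MP_de6bc3_an

open Oct Filter Topology MeasureTheory

/-- The complex Albert algebra `H₃(𝕆) + i H₃(𝕆)`; the pair `(a, b)` stands for `a + i b`. -/
abbrev AlbC : Type := Alb × Alb

/-- The complex bilinear extension of the Jordan product. -/
noncomputable def cmul (x y : AlbC) : AlbC :=
  (jmul x.1 y.1 - jmul x.2 y.2, jmul x.1 y.2 + jmul x.2 y.1)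

/-- The involution `(a + i b)* = a - i b`. -/
noncomputable def cstar (x : AlbC) : AlbC := (x.1, -x.2)

/-- Multiplication by complex scalars. -/
noncomputable def csmul (c : ℂ) (x : AlbC) : AlbC :=
  (c.re • x.1 - c.im • x.2, c.re • x.2 + c.im • x.1)

/-- `k` is the real power `h ^ s` of the positive element `h`, by functional calculus. -/
def IsPowC (s : ℝ) (h k : AlbC) : Prop :=
  ∃ (q : Fin 3 → Alb) (l : Fin 3 → ℝ), (∀ i j, jmul (q i) (q j) = if i = j then q i else 0) ∧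
    ∑ i, q i = one ∧ (∀ i, 0 ≤ l i) ∧ h = (∑ i, l i • q i, 0) ∧ k = (∑ i, (l i ^ s) • q i, 0)

/-- Positive complex-linear functionals `τ` on `L^∞(Ω, H₃(𝕆_ℂ))` with the trace property. The
functional is given on the essentially bounded measurable functions and respects equality
almost everywhere. -/
structure IsTrace {Ω : Type*} [MeasurableSpace Ω] (μ : Measure Ω) (τ : (Ω → AlbC) → ℂ) :
    Prop where
  congr : ∀ x y, MemLp x ∞ μ → (∀ᵐ ω ∂μ, x ω = y ω) → τ x = τ y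
  add : ∀ x y, MemLp x ∞ μ → MemLp y ∞ μ → τ (fun ω => x ω + y ω) = τ x + τ y
  smul : ∀ (c : ℂ) (x : Ω → AlbC), MemLp x ∞ μ → τ (fun ω => csmul c (x ω)) = c * τ x
  pos : ∀ x, MemLp x ∞ μ → 0 ≤ (τ (fun ω => cmul (cstar (x ω)) (x ω))).re ∧
    (τ (fun ω => cmul (cstar (x ω)) (x ω))).im = 0
  trace : ∀ x y z, MemLp x ∞ μ → MemLp y ∞ μ → MemLp z ∞ μ →
    τ (fun ω => cmul (x ω) (cmul (y ω) (z ω))) = τ (fun ω => cmul (cmul (x ω) (y ω)) (z ω))

lemma jmul_neg (X Y : Alb) : jmul X (-Y) = -jmul X Y := by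
  have := map_neg (jmulL X) Y
  exact this

lemma neg_jmul (X Y : Alb) : jmul (-X) Y = -jmul X Y := by
  rw [jmul_comm, jmul_neg, jmul_comm]

lemma jmul_zero (X : Alb) : jmul X 0 = 0 := map_zero (jmulL X)
lemma zero_jmul (X : Alb) : jmul 0 X = 0 := by rw [jmul_comm, jmul_zero]

lemma cmul_cstar (x : AlbC) : cmul (cstar x) x = (jmul x.1 x.1 + jmul x.2 x.2, 0) := by
  unfold cmul cstar
  simp only
  rw [neg_jmul, neg_jmul, jmul_comm x.2 x.1]
  simp

lemma IsPowC.isPow {s : ℝ} {h k : AlbC} (H : IsPowC s h k) : h.2 = 0 ∧ k.2 = 0 ∧ IsPow s h.1 k.1 := by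
  obtain ⟨q, l, h1, h2, h3, rfl, rfl⟩ := H
  exact ⟨rfl, rfl, q, l, ⟨h1, h2⟩, h3, rfl, rfl⟩

lemma isPowC_of {s : ℝ} {h k : Alb} (H : IsPow s h k) : IsPowC s (h, 0) (k, 0) := by
  obtain ⟨q, l, ⟨h1, h2⟩, h3, rfl, rfl⟩ := H
  exact ⟨q, l, h1, h2, h3, rfl, rfl⟩

lemma IsPowC.unique {s : ℝ} {h k k' : AlbC} (H : IsPowC s h k) (H' : IsPowC s h k') : k = k' := by
  obtain ⟨_, h2, h3⟩ := H.isPow
  obtain ⟨_, h2', h3'⟩ := H'.isPow
  exact Prod.ext (h3.unique h3') (by rw [h2, h2'])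

section meas

variable {Ω : Type*} [MeasurableSpace Ω] {μ : Measure Ω}

lemma exists_bound {E : Type*} [NormedAddCommGroup E] {f : Ω → E} (hf : MemLp f ∞ μ) :
    ∃ C : ℝ, 0 ≤ C ∧ ∀ᵐ ω ∂μ, ‖f ω‖ ≤ C := by
  have h1 : eLpNormEssSup f μ < ∞ := by
    have := hf.2
    rwa [eLpNorm_exponent_top] at this
  refine ⟨(eLpNormEssSup f μ).toReal, ENNReal.toReal_nonneg, ?_⟩
  filter_upwards [ae_le_eLpNormEssSup (f := f) (μ := μ)] with ω hω
  have := ENNReal.toReal_mono h1.ne hω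
  simpa using this

lemma memLp_comp {E F : Type*} [NormedAddCommGroup E] [ProperSpace E] [NormedAddCommGroup F]
    {g : E → F} (hg : Continuous g) {f : Ω → E} (hf : MemLp f ∞ μ) :
    MemLp (fun ω => g (f ω)) ∞ μ := by
  obtain ⟨C, hC, hb⟩ := exists_bound hf
  obtain ⟨D, hD⟩ := (isCompact_closedBall (0 : E) C).exists_bound_of_continuousOn hg.continuousOn
  refine memLp_top_of_bound (hg.comp_aestronglyMeasurable hf.1) D ?_
  filter_upwards [hb] with ω hω
  exact hD _ (mem_closedBall_zero_iff.mpr hω)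

end meas

lemma continuous_npw (n : ℕ) : Continuous fun h : Alb => npw h n := by
  induction n with
  | zero => exact continuous_const
  | succ n ih => exact Continuous.jmul' continuous_id ih

lemma continuous_pev (P : Polynomial ℝ) : Continuous fun h : Alb => pev P h := by
  have h1 : ∀ n : ℕ, Continuous fun h : Alb => P.coeff n • npw h n := fun n =>
    Continuous.comp (g := fun X : Alb => P.coeff n • X) (continuous_const_smul _) (continuous_npw n)
  unfold pev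
  simp only [Polynomial.sum_def]
  exact continuous_finset_sum _ fun n _ => h1 n

lemma eig_le (T : Alb →ₗ[ℝ] Alb) (hT : IsAut T) (l : Fin 3 → ℝ) (i : Fin 3) :
    l i ≤ 5 * ‖T (dg l)‖ := by
  have h1 := tr_jmul_self_le (T (dg l))
  rw [← hT.1, hT.tr, jmul_dg_dg, tr_dg] at h1
  have h2 : l i * l i ≤ ∑ j, l j * l j :=
    Finset.single_le_sum (f := fun j => l j * l j) (fun j _ => mul_self_nonneg _)
      (Finset.mem_univ i)
  have h3 := norm_nonneg (T (dg l))
  nlinarith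

/-- Uniform polynomial approximation of the spectral powers. -/
lemma exists_pow_approx (s : ℝ) (hs : 0 < s) (R : ℝ) :
    ∃ P : ℕ → Polynomial ℝ, ∀ (n : ℕ) (a b k : Alb),
      ‖jmul a a + jmul b b‖ ≤ R → IsPow s (jmul a a + jmul b b) k →
        ‖pev (P n) (jmul a a + jmul b b) - k‖ ≤ 6 * (1 / ((n : ℝ) + 1)) := by
  have hW : ∀ n : ℕ, ∃ P : Polynomial ℝ, ∀ x ∈ Set.Icc (0 : ℝ) (5 * R),
      |P.eval x - x ^ s| < 1 / ((n : ℝ) + 1) := by
    intro n
    exact exists_polynomial_near_of_continuousOn 0 (5 * R) (fun x => x ^ s)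
      (Real.continuous_rpow_const hs.le).continuousOn _ (by positivity)
  choose P hP using hW
  refine ⟨P, fun n a b k hR hk => ?_⟩
  obtain ⟨T, hT, l, hl, h⟩ := exists_diag_sq a b
  rw [h] at hk hR ⊢
  rw [hk.eq_aut hT hl, aut_dg T l, pev_frame (isFrame_aut T hT), aut_dg T,
    ← Finset.sum_sub_distrib]
  have hb : ∀ i ∈ (Finset.univ : Finset (Fin 3)), ‖(P n).eval (l i) • T (e i) - (l i ^ s) • T (e i)‖
      ≤ 2 * (1 / ((n : ℝ) + 1)) := by
    intro i _
    have h0 : (P n).eval (l i) • T (e i) - (l i ^ s) • T (e i)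
        = ((P n).eval (l i) - l i ^ s) • T (e i) := (sub_smul _ _ _).symm
    rw [h0, norm_smul, Real.norm_eq_abs]
    have h1 : |(P n).eval (l i) - l i ^ s| < 1 / ((n : ℝ) + 1) :=
      hP n _ ⟨hl i, (eig_le T hT l i).trans (by linarith)⟩
    have h2 := norm_frame_le (isFrame_aut T hT) i
    have h3 : (0 : ℝ) < 1 / ((n : ℝ) + 1) := by positivity
    calc |(P n).eval (l i) - l i ^ s| * ‖T (e i)‖ ≤ (1 / ((n : ℝ) + 1)) * 2 :=
          mul_le_mul h1.le h2 (norm_nonneg _) h3.le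
      _ = _ := by ring
  refine (norm_sum_le_of_le _ hb).trans (le_of_eq ?_)
  simp
  ring

lemma norm_isPow_le (s : ℝ) (hs : 0 < s) (R : ℝ) (a b k : Alb)
    (hR : ‖jmul a a + jmul b b‖ ≤ R) (hk : IsPow s (jmul a a + jmul b b) k) :
    ‖k‖ ≤ 6 * (5 * R) ^ s := by
  obtain ⟨T, hT, l, hl, h⟩ := exists_diag_sq a b
  rw [h] at hk hR
  rw [hk.eq_aut hT hl, aut_dg T]
  have hb : ∀ i ∈ (Finset.univ : Finset (Fin 3)), ‖(l i ^ s) • T (e i)‖ ≤ 2 * (5 * R) ^ s := by
    intro i _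
    rw [norm_smul, Real.norm_eq_abs, abs_of_nonneg (Real.rpow_nonneg (hl i) _)]
    have h1 : l i ^ s ≤ (5 * R) ^ s :=
      Real.rpow_le_rpow (hl i) ((eig_le T hT l i).trans (by linarith)) hs.le
    have h2 := norm_frame_le (isFrame_aut T hT) i
    have h3 : 0 ≤ l i ^ s := Real.rpow_nonneg (hl i) _
    nlinarith [norm_nonneg (T (e i))]
  refine (norm_sum_le_of_le _ hb).trans (le_of_eq ?_)
  simp
  ring

instance instProperSpaceAlb : ProperSpace Alb := FiniteDimensional.proper ℝ Alb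
instance instProperSpaceAlbC : ProperSpace AlbC := inferInstance

lemma continuous_sq : Continuous fun x : AlbC => jmul x.1 x.1 + jmul x.2 x.2 :=
  (Continuous.jmul' continuous_fst continuous_fst).add
    (Continuous.jmul' continuous_snd continuous_snd)

section meas2

variable {Ω : Type*} [MeasurableSpace Ω] {μ : Measure Ω}

lemma memLp_pow (s : ℝ) (hs : 0 < s) (x : Ω → AlbC) (hx : MemLp x ∞ μ) (k : Ω → Alb)
    (hk : ∀ᵐ ω ∂μ, IsPow s (jmul (x ω).1 (x ω).1 + jmul (x ω).2 (x ω).2) (k ω)) :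
    MemLp k ∞ μ := by
  have hH : MemLp (fun ω => jmul (x ω).1 (x ω).1 + jmul (x ω).2 (x ω).2) ∞ μ :=
    memLp_comp (g := fun x : AlbC => jmul x.1 x.1 + jmul x.2 x.2) continuous_sq hx
  obtain ⟨R, hR0, hR⟩ := exists_bound hH
  obtain ⟨P, hP⟩ := exists_pow_approx s hs R
  have hmeas : AEStronglyMeasurable k μ := by
    refine aestronglyMeasurable_of_tendsto_ae (u := atTop)
      (f := fun n ω => pev (P n) (jmul (x ω).1 (x ω).1 + jmul (x ω).2 (x ω).2)) ?_ ?_
    · intro n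
      exact (continuous_pev (P n)).comp_aestronglyMeasurable hH.1
    · filter_upwards [hR, hk] with ω hω hkω
      rw [tendsto_iff_norm_sub_tendsto_zero]
      have h0 : Tendsto (fun n : ℕ => 6 * (1 / ((n : ℝ) + 1))) atTop (𝓝 0) := by
        have := (tendsto_one_div_add_atTop_nhds_zero_nat (𝕜 := ℝ)).const_mul 6
        simpa using this
      exact squeeze_zero (fun _ => norm_nonneg _) (fun n => hP n _ _ _ hω hkω) h0
  refine memLp_top_of_bound hmeas (6 * (5 * R) ^ s) ?_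
  filter_upwards [hR, hk] with ω hω hkω
  exact norm_isPow_le s hs R _ _ _ hω hkω

lemma existsUnique_powC (s : ℝ) (a : AlbC) : ∃! k : AlbC, IsPowC s (cmul (cstar a) a) k := by
  obtain ⟨k, hk⟩ := exists_isPow s a.1 a.2
  refine ⟨(k, 0), ?_, ?_⟩
  · simp only
    rw [cmul_cstar]
    exact isPowC_of hk
  · intro Y hY
    refine hY.unique ?_
    rw [cmul_cstar]
    exact isPowC_of hk

lemma memLp_real {f : Ω → Alb} (hf : MemLp f ∞ μ) : MemLp (fun ω => ((f ω, 0) : AlbC)) ∞ μ :=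
  memLp_comp (g := fun a : Alb => ((a, 0) : AlbC)) (by fun_prop) hf

lemma memLp_fst {X : Ω → AlbC} (hX : MemLp X ∞ μ) : MemLp (fun ω => (X ω).1) ∞ μ :=
  memLp_comp (g := fun a : AlbC => a.1) continuous_fst hX

lemma memLp_powC (s : ℝ) (hs : 0 < s) (x X : Ω → AlbC) (hx : MemLp x ∞ μ)
    (hX : ∀ᵐ ω ∂μ, IsPowC s (cmul (cstar (x ω)) (x ω)) (X ω)) : MemLp X ∞ μ := by
  have h1 : MemLp (fun ω => (X ω).1) ∞ μ := by
    refine memLp_pow s hs x hx _ ?_
    filter_upwards [hX] with ω h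
    rw [cmul_cstar] at h
    exact h.isPow.2.2
  refine (memLp_real h1).ae_eq ?_
  filter_upwards [hX] with ω h
  exact Prod.ext rfl h.isPow.2.1.symm

end meas2

section tracepart

variable {Ω : Type*} [MeasurableSpace Ω] {μ : Measure Ω}

lemma cmul_real (a b : Alb) : cmul (a, 0) (b, 0) = (jmul a b, 0) := by
  unfold cmul
  simp only [jmul_zero, zero_jmul]
  simp

/-- A real function viewed in the complexification. -/
noncomputable def emb (f : Ω → Alb) : Ω → AlbC := fun ω => (f ω, 0)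

lemma memLp_emb {f : Ω → Alb} (hf : MemLp f ∞ μ) : MemLp (emb f) ∞ μ := memLp_real hf

section helper

variable {E : Type*} [NormedAddCommGroup E] [NormedSpace ℝ E]

lemma memLp_smul' (c : ℝ) {f : Ω → E} (hf : MemLp f ∞ μ) : MemLp (fun ω => c • f ω) ∞ μ :=
  hf.const_smul c

lemma memLp_add' {f g : Ω → E} (hf : MemLp f ∞ μ) (hg : MemLp g ∞ μ) :
    MemLp (fun ω => f ω + g ω) ∞ μ := hf.add hg

lemma memLp_sub' {f g : Ω → E} (hf : MemLp f ∞ μ) (hg : MemLp g ∞ μ) :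
    MemLp (fun ω => f ω - g ω) ∞ μ := hf.sub hg

end helper

lemma IsTrace.congr_add {τ : (Ω → AlbC) → ℂ} (hτ : IsTrace μ τ) {f g : Ω → Alb}
    (hf : MemLp f ∞ μ) (hg : MemLp g ∞ μ) :
    τ (emb fun ω => f ω + g ω) = τ (emb f) + τ (emb g) := by
  rw [← hτ.add _ _ (memLp_emb hf) (memLp_emb hg)]
  congr 1
  ext1 ω
  simp [emb]

lemma IsTrace.congr_smul {τ : (Ω → AlbC) → ℂ} (hτ : IsTrace μ τ) {f : Ω → Alb} (r : ℝ)
    (hf : MemLp f ∞ μ) : τ (emb fun ω => r • f ω) = r * τ (emb f) := by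
  rw [← hτ.smul (r : ℂ) _ (memLp_emb hf)]
  congr 1
  ext1 ω
  simp [emb, csmul]

lemma IsTrace.congr_trace {τ : (Ω → AlbC) → ℂ} (hτ : IsTrace μ τ) {f : Ω → Alb} (Y Z : Alb)
    (hf : MemLp f ∞ μ) :
    τ (emb fun ω => jmul (f ω) (jmul Y Z)) = τ (emb fun ω => jmul (jmul (f ω) Y) Z) := by
  have hY : MemLp (fun _ : Ω => Y) ∞ μ := memLp_top_const Y
  have hZ : MemLp (fun _ : Ω => Z) ∞ μ := memLp_top_const Z
  have h := hτ.trace _ _ _ (memLp_emb hf) (memLp_emb hY) (memLp_emb hZ)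
  simp only [emb, cmul_real] at h
  exact h

lemma memLp_lin (A : Alb →ₗ[ℝ] Alb) {f : Ω → Alb} (hf : MemLp f ∞ μ) :
    MemLp (fun ω => A (f ω)) ∞ μ :=
  memLp_comp (g := fun x => A x) A.continuous_of_finiteDimensional hf

/-- Evaluate the trace on linear images of a fixed element. -/
noncomputable def Psi {τ : (Ω → AlbC) → ℂ} (hτ : IsTrace μ τ) {f : Ω → Alb} (hf : MemLp f ∞ μ) :
    (Alb →ₗ[ℝ] Alb) →ₗ[ℝ] ℂ where
  toFun := fun A => τ (emb fun ω => A (f ω))
  map_add' := fun A B => hτ.congr_add (memLp_lin A hf) (memLp_lin B hf)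
  map_smul' := fun r A => by
    have := hτ.congr_smul r (memLp_lin A hf)
    refine this.trans ?_
    simp

lemma Psi_apply {τ : (Ω → AlbC) → ℂ} (hτ : IsTrace μ τ) {f : Ω → Alb} (hf : MemLp f ∞ μ)
    (A : Alb →ₗ[ℝ] Alb) : Psi hτ hf A = τ (emb fun ω => A (f ω)) := rfl

lemma Psi_smulRight {τ : (Ω → AlbC) → ℂ} (hτ : IsTrace μ τ) {f : Ω → Alb} (hf : MemLp f ∞ μ)
    (φ : Alb →ₗ[ℝ] ℝ) (a : Alb) :
    Psi hτ hf (φ.smulRight a) = tr a • Psi hτ hf (φ.smulRight (e 0)) := by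
  let F : Alb →ₗ[ℝ] ℂ :=
    { toFun := fun a => Psi hτ hf (φ.smulRight a)
      map_add' := fun a b => by
        rw [← map_add]
        congr 1
        ext1 x
        simp
      map_smul' := fun r a => by
        rw [RingHom.id_apply, ← map_smul]
        congr 1
        ext1 x
        rw [LinearMap.smulRight_apply, LinearMap.smul_apply, LinearMap.smulRight_apply,
          smul_comm] }
  have hF : ∀ X Y Z, F (jmul X (jmul Y Z)) = F (jmul (jmul X Y) Z) := by
    intro X Y Z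
    have h := hτ.congr_trace Y Z (memLp_lin (φ.smulRight X) hf)
    simp only [LinearMap.smulRight_apply, smul_jmul] at h
    change Psi hτ hf (φ.smulRight (jmul X (jmul Y Z)))
      = Psi hτ hf (φ.smulRight (jmul (jmul X Y) Z))
    rw [Psi_apply, Psi_apply]
    simp only [LinearMap.smulRight_apply]
    exact h
  exact trace_unique F hF a

lemma Psi_id {τ : (Ω → AlbC) → ℂ} (hτ : IsTrace μ τ) {f : Ω → Alb} (hf : MemLp f ∞ μ) :
    Psi hτ hf LinearMap.id = Psi hτ hf (trL.smulRight (e 0)) := by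
  let b := Module.finBasis ℝ Alb
  have h1 : (LinearMap.id : Alb →ₗ[ℝ] Alb) = ∑ n, (b.coord n).smulRight (b n) := by
    ext1 x
    rw [LinearMap.sum_apply]
    simp only [LinearMap.smulRight_apply, LinearMap.id_apply, Module.Basis.coord_apply]
    exact (b.sum_repr x).symm
  have h2 : trL.smulRight (e 0) = ∑ n, tr (b n) • (b.coord n).smulRight (e 0) := by
    ext1 x
    rw [LinearMap.sum_apply]
    simp only [LinearMap.smulRight_apply, LinearMap.smul_apply, Module.Basis.coord_apply, smul_smul,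
      ← Finset.sum_smul]
    congr 1
    conv_lhs => rw [← b.sum_repr x]
    rw [map_sum]
    refine Finset.sum_congr rfl fun n _ => ?_
    rw [map_smul, smul_eq_mul, mul_comm]
    rfl
  rw [h1, h2, map_sum, map_sum]
  refine Finset.sum_congr rfl fun n _ => ?_
  rw [Psi_smulRight, map_smul]

lemma IsTrace.eq_tr {τ : (Ω → AlbC) → ℂ} (hτ : IsTrace μ τ) {f : Ω → Alb} (hf : MemLp f ∞ μ) :
    τ (emb f) = τ (emb fun ω => tr (f ω) • e 0) := by
  have h := Psi_id hτ hf
  rw [Psi_apply, Psi_apply] at h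
  exact h

lemma IsTrace.nonneg {τ : (Ω → AlbC) → ℂ} (hτ : IsTrace μ τ) {g : Ω → ℝ}
    (hg : MemLp g ∞ μ) (h : ∀ᵐ ω ∂μ, 0 ≤ g ω) :
    0 ≤ (τ (emb fun ω => g ω • e 0)).re := by
  have hs : MemLp (fun ω => Real.sqrt (g ω) • e 0) ∞ μ :=
    memLp_comp (g := fun r : ℝ => Real.sqrt r • e 0)
      (Real.continuous_sqrt.smul continuous_const) hg
  have hs2 : MemLp (fun ω => g ω • e 0) ∞ μ :=
    memLp_comp (g := fun r : ℝ => r • e 0) (continuous_id.smul continuous_const) hg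
  have h1 := (hτ.pos _ (memLp_emb hs)).1
  have h2 : τ (emb fun ω => g ω • e 0)
      = τ (fun ω => cmul (cstar (emb (fun ω => Real.sqrt (g ω) • e 0) ω))
        (emb (fun ω => Real.sqrt (g ω) • e 0) ω)) := by
    refine hτ.congr _ _ (memLp_emb hs2) ?_
    filter_upwards [h] with ω h3
    rw [cmul_cstar]
    simp only [emb, smul_jmul, jmul_smul, e_jmul_e, smul_smul, Real.mul_self_sqrt h3, jmul_zero,
      add_zero]
  rw [h2]
  exact h1

lemma memLp_trR {f : Ω → Alb} (hf : MemLp f ∞ μ) : MemLp (fun ω => tr (f ω)) ∞ μ :=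
  memLp_comp (g := fun x => tr x) continuous_tr hf

/-- Monotonicity of the trace. -/
lemma IsTrace.mono {τ : (Ω → AlbC) → ℂ} (hτ : IsTrace μ τ) {f g h : Ω → Alb} (c d : ℝ)
    (hf : MemLp f ∞ μ) (hg : MemLp g ∞ μ) (hh : MemLp h ∞ μ)
    (H : ∀ᵐ ω ∂μ, tr (h ω) ≤ c * tr (f ω) + d * tr (g ω)) :
    (τ (emb h)).re ≤ c * (τ (emb f)).re + d * (τ (emb g)).re := by
  have hcf : MemLp (fun ω => c • f ω) ∞ μ := memLp_smul' c hf
  have hdg : MemLp (fun ω => d • g ω) ∞ μ := memLp_smul' d hg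
  have hsum : MemLp (fun ω => c • f ω + d • g ω) ∞ μ := memLp_add' hcf hdg
  have hdiff : MemLp (fun ω => c • f ω + d • g ω - h ω) ∞ μ := memLp_sub' hsum hh
  have e1 := hτ.congr_add hcf hdg
  have e2 := hτ.congr_add hdiff hh
  simp only [sub_add_cancel] at e2
  have e3 := hτ.congr_smul c hf
  have e4 := hτ.congr_smul d hg
  have e5 : 0 ≤ (τ (emb fun ω => c • f ω + d • g ω - h ω)).re := by
    rw [hτ.eq_tr hdiff]
    refine hτ.nonneg (memLp_trR hdiff) ?_
    filter_upwards [H] with ω hω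
    rw [tr_sub, tr_add, tr_smul, tr_smul]
    linarith
  have h1 : (τ (emb fun ω => c • f ω + d • g ω)).re = c * (τ (emb f)).re + d * (τ (emb g)).re := by
    rw [e1, e3, e4, Complex.add_re, Complex.re_ofReal_mul, Complex.re_ofReal_mul]
  rw [← h1, e2, Complex.add_re]
  linarith

end tracepart

end Pool.Agent.Lib.MP_de6bc3_an
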