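import Pool.Agent.Lib.MP_de6bc3_an.Linf

set_option autoImplicit false

open scoped Quaternion ENNReal

namespace Pool.Agent.Lib.MP_de6bc3_an

open Filter Topology MeasureTheory

section aux

variable {Ω : Type*} [MeasurableSpace Ω] {μ : Measure Ω}

/-- `X = (x* ∘ x)^s` almost everywhere. -/
def IsAbsPow (μ : Measure Ω) (s : ℝ) (x X : Ω → AlbC) : Prop :=
  ∀ᵐ ω ∂μ, IsPowC s (cmul (cstar (x ω)) (x ω)) (X ω)

lemma isPow_sq {s : ℝ} (hs : 0 ≤ s) {h k : Alb} (H : IsPow s h k) : IsPow (s + s) h (jmul k k) := by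
  obtain ⟨q, l, hq, hl, hh, rfl⟩ := H
  refine ⟨q, l, hq, hl, hh, ?_⟩
  rw [jmul_frame hq]
  refine Finset.sum_congr rfl fun i _ => ?_
  rw [Real.rpow_add_of_nonneg (hl i) hs hs]

lemma pos_of_pow {τ : (Ω → AlbC) → ℂ} (hτ : IsTrace μ τ) (s : ℝ) (hs : 0 < s)
    (x X : Ω → AlbC) (hx : MemLp x ∞ μ) (hX : IsAbsPow μ s x X) :
    0 ≤ (τ X).re ∧ (τ X).im = 0 := by
  choose Y hY using fun ω => (existsUnique_powC (s / 2) (x ω)).exists
  have hYm : MemLp Y ∞ μ := memLp_powC (s / 2) (by positivity) x Y hx (Eventually.of_forall hY)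
  have h1 := hτ.pos Y hYm
  have h2 : τ X = τ (fun ω => cmul (cstar (Y ω)) (Y ω)) := by
    refine hτ.congr _ _ (memLp_powC s hs x X hx hX) ?_
    filter_upwards [hX] with ω h3
    have h4 := hY ω
    rw [cmul_cstar] at h3 h4 ⊢
    obtain ⟨_, g2, g3⟩ := h3.isPow
    obtain ⟨_, g2', g3'⟩ := h4.isPow
    have h5 := isPow_sq (by positivity) g3'
    rw [add_halves] at h5
    have h6 := g3.unique h5
    rw [g2', jmul_zero, add_zero, ← h6]
    exact Prod.ext rfl g2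
  rw [h2]
  exact h1

lemma eq_emb {τ : (Ω → AlbC) → ℂ} (hτ : IsTrace μ τ) {X : Ω → AlbC} (hX : MemLp X ∞ μ)
    (h0 : ∀ᵐ ω ∂μ, (X ω).2 = 0) : τ X = τ (emb fun ω => (X ω).1) := by
  refine hτ.congr _ _ hX ?_
  filter_upwards [h0] with ω h1
  exact Prod.ext rfl h1

end aux

/-- The spectral `L^p`-formula defines a seminorm on `L^∞(Ω, H₃(𝕆_ℂ))`: for every measure space,
every positive linear functional `τ` with the trace property, and every real `p ≥ 1`. -/
theorem main_theorem {Ω : Type*} [MeasurableSpace Ω] (μ : Measure Ω) (τ : (Ω → AlbC) → ℂ)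
    (hτ : IsTrace μ τ) (p : ℝ) (hp : 1 ≤ p) :
    (∀ a : AlbC, ∃! k : AlbC, IsPowC (p / 2) (cmul (cstar a) a) k) ∧
    (∀ x X : Ω → AlbC, MemLp x ∞ μ → IsAbsPow μ (p / 2) x X →
      MemLp X ∞ μ ∧ 0 ≤ (τ X).re ∧ (τ X).im = 0) ∧
    ∀ x y X Y Z : Ω → AlbC, MemLp x ∞ μ → MemLp y ∞ μ → IsAbsPow μ (p / 2) x X →
      IsAbsPow μ (p / 2) y Y → IsAbsPow μ (p / 2) (fun ω => x ω + y ω) Z →
      (τ Z).re ^ (1 / p) ≤ (τ X).re ^ (1 / p) + (τ Y).re ^ (1 / p) := by
  have hp0 : 0 < p := by linarith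
  refine ⟨fun a => existsUnique_powC (p / 2) a,
    fun x X hx hX => ⟨memLp_powC (p / 2) (by positivity) x X hx hX,
      pos_of_pow hτ (p / 2) (by positivity) x X hx hX⟩, ?_⟩
  intro x y X Y Z hx hy hX hY hZ
  have hxy : MemLp (fun ω => x ω + y ω) ∞ μ := hx.add hy
  have mX := memLp_powC (p / 2) (by positivity) x X hx hX
  have mY := memLp_powC (p / 2) (by positivity) y Y hy hY
  have mZ := memLp_powC (p / 2) (by positivity) _ Z hxy hZ
  have hX0 := (pos_of_pow hτ (p / 2) (by positivity) x X hx hX).1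
  have hY0 := (pos_of_pow hτ (p / 2) (by positivity) y Y hy hY).1
  have hZ0 := (pos_of_pow hτ (p / 2) (by positivity) _ Z hxy hZ).1
  have eX : τ X = τ (emb fun ω => (X ω).1) := eq_emb hτ mX (hX.mono fun ω h => h.isPow.2.1)
  have eY : τ Y = τ (emb fun ω => (Y ω).1) := eq_emb hτ mY (hY.mono fun ω h => h.isPow.2.1)
  have eZ : τ Z = τ (emb fun ω => (Z ω).1) := eq_emb hτ mZ (hZ.mono fun ω h => h.isPow.2.1)
  have key : ∀ A B : ℝ, 0 < A → 0 < B → (τ Z).re
      ≤ ((A + B) ^ p * (A / (A + B)) * (A⁻¹) ^ p) * (τ X).re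
        + ((A + B) ^ p * (B / (A + B)) * (B⁻¹) ^ p) * (τ Y).re := by
    intro A B hA hB
    rw [eX, eY, eZ]
    refine hτ.mono _ _ (memLp_fst mX) (memLp_fst mY) (memLp_fst mZ) ?_
    filter_upwards [hX, hY, hZ] with ω h1 h2 h3
    rw [cmul_cstar] at h1 h2 h3
    have h5 := tri_isPow p hp (x ω).1 (x ω).2 (y ω).1 (y ω).2 (Z ω).1 (X ω).1 (Y ω).1 A B hA hB
      h3.isPow.2.2 h1.isPow.2.2 h2.isPow.2.2
    have hAB : 0 < (A + B) ^ p := Real.rpow_pos_of_pos (by positivity) p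
    have h6 : ((A + B)⁻¹) ^ p = ((A + B) ^ p)⁻¹ := Real.inv_rpow (by positivity) p
    rw [h6] at h5
    have h7 := mul_le_mul_of_nonneg_left h5 hAB.le
    rw [mul_inv_cancel_left₀ hAB.ne'] at h7
    linarith
  set α := (τ X).re ^ (1 / p) with hα
  set β := (τ Y).re ^ (1 / p) with hβ
  have hα0 : 0 ≤ α := Real.rpow_nonneg hX0 _
  have hβ0 : 0 ≤ β := Real.rpow_nonneg hY0 _
  have hαp : (τ X).re = α ^ p := by
    rw [hα, ← Real.rpow_mul hX0, one_div_mul_cancel hp0.ne', Real.rpow_one]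
  have hβp : (τ Y).re = β ^ p := by
    rw [hβ, ← Real.rpow_mul hY0, one_div_mul_cancel hp0.ne', Real.rpow_one]
  apply le_of_forall_pos_le_add
  intro δ hδ
  have hA : 0 < α + δ / 2 := by positivity
  have hB : 0 < β + δ / 2 := by positivity
  have h1 := key _ _ hA hB
  set A := α + δ / 2 with hAdef
  set B := β + δ / 2 with hBdef
  have hABpos : 0 < A + B := by positivity
  have hABp : 0 < (A + B) ^ p := Real.rpow_pos_of_pos hABpos p
  have hXA : (A⁻¹) ^ p * (τ X).re ≤ 1 := by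
    rw [hαp, ← Real.mul_rpow (by positivity) hα0]
    apply Real.rpow_le_one (by positivity) _ hp0.le
    rw [inv_mul_le_one₀ hA]
    linarith
  have hYB : (B⁻¹) ^ p * (τ Y).re ≤ 1 := by
    rw [hβp, ← Real.mul_rpow (by positivity) hβ0]
    apply Real.rpow_le_one (by positivity) _ hp0.le
    rw [inv_mul_le_one₀ hB]
    linarith
  have h2 : (τ Z).re ≤ (A + B) ^ p := by
    have e1 : ((A + B) ^ p * (A / (A + B)) * (A⁻¹) ^ p) * (τ X).re
        ≤ (A + B) ^ p * (A / (A + B)) := by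
      rw [mul_assoc]
      exact mul_le_of_le_one_right (by positivity) hXA
    have e2 : ((A + B) ^ p * (B / (A + B)) * (B⁻¹) ^ p) * (τ Y).re
        ≤ (A + B) ^ p * (B / (A + B)) := by
      rw [mul_assoc]
      exact mul_le_of_le_one_right (by positivity) hYB
    have e3 : (A + B) ^ p * (A / (A + B)) + (A + B) ^ p * (B / (A + B)) = (A + B) ^ p := by
      rw [← mul_add, ← add_div, div_self hABpos.ne', mul_one]
    linarith
  calc (τ Z).re ^ (1 / p) ≤ ((A + B) ^ p) ^ (1 / p) :=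
        Real.rpow_le_rpow hZ0 h2 (by positivity)
    _ = A + B := by
        rw [← Real.rpow_mul hABpos.le, mul_one_div_cancel hp0.ne', Real.rpow_one]
    _ = α + β + δ := by rw [hAdef, hBdef]; ring

end Pool.Agent.Lib.MP_de6bc3_an
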