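import Mathlib

set_option autoImplicit false

open scoped Quaternion

namespace Pool.Agent.Lib.MP_de6bc3_an

/-- The underlying real vector space of the octonions, `ℍ × ℍ`. -/
abbrev Oct : Type := ℍ[ℝ] × ℍ[ℝ]

namespace Oct

/-- Octonion multiplication (Cayley-Dickson doubling of the quaternions):
`(a, b) (c, d) = (a c - d* b, d a + b c*)`. -/
noncomputable def mul (x y : Oct) : Oct :=
  (x.1 * y.1 - star y.2 * x.2, y.2 * x.1 + x.2 * star y.1)

/-- Octonion conjugation `(a, b)* = (a*, -b)`. -/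
noncomputable def conj (x : Oct) : Oct := (star x.1, -x.2)

/-- The real octonion `r`. -/
noncomputable def ofReal (r : ℝ) : Oct := ((r : ℍ[ℝ]), 0)

/-- The real part. -/
def re (x : Oct) : ℝ := x.1.re

def c0 (x : Oct) : ℝ := x.1.re
def c1 (x : Oct) : ℝ := x.1.imI
def c2 (x : Oct) : ℝ := x.1.imJ
def c3 (x : Oct) : ℝ := x.1.imK
def c4 (x : Oct) : ℝ := x.2.re
def c5 (x : Oct) : ℝ := x.2.imI
def c6 (x : Oct) : ℝ := x.2.imJ
def c7 (x : Oct) : ℝ := x.2.imK

/-- The real inner product `Re (x* y)`. -/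
def ip (x y : Oct) : ℝ := c0 x * c0 y + c1 x * c1 y + c2 x * c2 y + c3 x * c3 y + c4 x * c4 y
  + c5 x * c5 y + c6 x * c6 y + c7 x * c7 y

/-- Squared norm. -/
def nsq (x : Oct) : ℝ := ip x x

lemma ext' {x y : Oct} (h0 : c0 x = c0 y) (h1 : c1 x = c1 y) (h2 : c2 x = c2 y)
    (h3 : c3 x = c3 y) (h4 : c4 x = c4 y) (h5 : c5 x = c5 y)
    (h6 : c6 x = c6 y) (h7 : c7 x = c7 y) : x = y := by
  apply Prod.ext <;> apply QuaternionAlgebra.ext <;> assumption

lemma mul_c0 (x y : Oct) : c0 (mul x y) = c0 x * c0 y - c1 x * c1 y - c2 x * c2 y - c3 x * c3 y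
    - c4 x * c4 y - c5 x * c5 y - c6 x * c6 y - c7 x * c7 y := by
  simp [mul, c0, c1, c2, c3, c4, c5, c6, c7]; ring
lemma mul_c1 (x y : Oct) : c1 (mul x y) = c0 x * c1 y + c1 x * c0 y + c2 x * c3 y - c3 x * c2 y - c4 y * c5 x + c5 y * c4 x + c6 y * c7 x - c7 y * c6 x := by
  simp [mul, c0, c1, c2, c3, c4, c5, c6, c7]; ring
lemma mul_c2 (x y : Oct) : c2 (mul x y) = c0 x * c2 y - c1 x * c3 y + c2 x * c0 y + c3 x * c1 y - c4 y * c6 x - c5 y * c7 x + c6 y * c4 x + c7 y * c5 x := by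
  simp [mul, c0, c1, c2, c3, c4, c5, c6, c7]; ring
lemma mul_c3 (x y : Oct) : c3 (mul x y) = c0 x * c3 y + c1 x * c2 y - c2 x * c1 y + c3 x * c0 y - c4 y * c7 x + c5 y * c6 x - c6 y * c5 x + c7 y * c4 x := by
  simp [mul, c0, c1, c2, c3, c4, c5, c6, c7]; ring
lemma mul_c4 (x y : Oct) : c4 (mul x y) = c4 y * c0 x - c5 y * c1 x - c6 y * c2 x - c7 y * c3 x + c4 x * c0 y + c5 x * c1 y + c6 x * c2 y + c7 x * c3 y := by
  simp [mul, c0, c1, c2, c3, c4, c5, c6, c7]; ring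
lemma mul_c5 (x y : Oct) : c5 (mul x y) = c4 y * c1 x + c5 y * c0 x + c6 y * c3 x - c7 y * c2 x - c4 x * c1 y + c5 x * c0 y - c6 x * c3 y + c7 x * c2 y := by
  simp [mul, c0, c1, c2, c3, c4, c5, c6, c7]; ring
lemma mul_c6 (x y : Oct) : c6 (mul x y) = c4 y * c2 x - c5 y * c3 x + c6 y * c0 x + c7 y * c1 x - c4 x * c2 y + c5 x * c3 y + c6 x * c0 y - c7 x * c1 y := by
  simp [mul, c0, c1, c2, c3, c4, c5, c6, c7]; ring
lemma mul_c7 (x y : Oct) : c7 (mul x y) = c4 y * c3 x + c5 y * c2 x - c6 y * c1 x + c7 y * c0 x - c4 x * c3 y - c5 x * c2 y + c6 x * c1 y + c7 x * c0 y := by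
  simp [mul, c0, c1, c2, c3, c4, c5, c6, c7]; ring
lemma conj_c0 (x : Oct) : c0 (conj x) = c0 x := by simp [conj, c0]
lemma conj_c1 (x : Oct) : c1 (conj x) = -c1 x := by simp [conj, c1]
lemma conj_c2 (x : Oct) : c2 (conj x) = -c2 x := by simp [conj, c2]
lemma conj_c3 (x : Oct) : c3 (conj x) = -c3 x := by simp [conj, c3]
lemma conj_c4 (x : Oct) : c4 (conj x) = -c4 x := by simp [conj, c4]
lemma conj_c5 (x : Oct) : c5 (conj x) = -c5 x := by simp [conj, c5]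
lemma conj_c6 (x : Oct) : c6 (conj x) = -c6 x := by simp [conj, c6]
lemma conj_c7 (x : Oct) : c7 (conj x) = -c7 x := by simp [conj, c7]
lemma add_c0 (x y : Oct) : c0 (x + y) = c0 x + c0 y := rfl
lemma sub_c0 (x y : Oct) : c0 (x - y) = c0 x - c0 y := rfl
lemma neg_c0 (x : Oct) : c0 (-x) = -c0 x := rfl
lemma zero_c0 : c0 0 = 0 := rfl
lemma smul_c0 (r : ℝ) (x : Oct) : c0 (r • x) = r * c0 x := rfl
lemma ofReal_c0 (r : ℝ) : c0 (ofReal r) = r := by simp [ofReal, c0]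
lemma add_c1 (x y : Oct) : c1 (x + y) = c1 x + c1 y := rfl
lemma sub_c1 (x y : Oct) : c1 (x - y) = c1 x - c1 y := rfl
lemma neg_c1 (x : Oct) : c1 (-x) = -c1 x := rfl
lemma zero_c1 : c1 0 = 0 := rfl
lemma smul_c1 (r : ℝ) (x : Oct) : c1 (r • x) = r * c1 x := rfl
lemma ofReal_c1 (r : ℝ) : c1 (ofReal r) = 0 := by simp [ofReal, c1]
lemma add_c2 (x y : Oct) : c2 (x + y) = c2 x + c2 y := rfl
lemma sub_c2 (x y : Oct) : c2 (x - y) = c2 x - c2 y := rfl
lemma neg_c2 (x : Oct) : c2 (-x) = -c2 x := rfl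
lemma zero_c2 : c2 0 = 0 := rfl
lemma smul_c2 (r : ℝ) (x : Oct) : c2 (r • x) = r * c2 x := rfl
lemma ofReal_c2 (r : ℝ) : c2 (ofReal r) = 0 := by simp [ofReal, c2]
lemma add_c3 (x y : Oct) : c3 (x + y) = c3 x + c3 y := rfl
lemma sub_c3 (x y : Oct) : c3 (x - y) = c3 x - c3 y := rfl
lemma neg_c3 (x : Oct) : c3 (-x) = -c3 x := rfl
lemma zero_c3 : c3 0 = 0 := rfl
lemma smul_c3 (r : ℝ) (x : Oct) : c3 (r • x) = r * c3 x := rfl
lemma ofReal_c3 (r : ℝ) : c3 (ofReal r) = 0 := by simp [ofReal, c3]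
lemma add_c4 (x y : Oct) : c4 (x + y) = c4 x + c4 y := rfl
lemma sub_c4 (x y : Oct) : c4 (x - y) = c4 x - c4 y := rfl
lemma neg_c4 (x : Oct) : c4 (-x) = -c4 x := rfl
lemma zero_c4 : c4 0 = 0 := rfl
lemma smul_c4 (r : ℝ) (x : Oct) : c4 (r • x) = r * c4 x := rfl
lemma ofReal_c4 (r : ℝ) : c4 (ofReal r) = 0 := by simp [ofReal, c4]
lemma add_c5 (x y : Oct) : c5 (x + y) = c5 x + c5 y := rfl
lemma sub_c5 (x y : Oct) : c5 (x - y) = c5 x - c5 y := rfl
lemma neg_c5 (x : Oct) : c5 (-x) = -c5 x := rfl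
lemma zero_c5 : c5 0 = 0 := rfl
lemma smul_c5 (r : ℝ) (x : Oct) : c5 (r • x) = r * c5 x := rfl
lemma ofReal_c5 (r : ℝ) : c5 (ofReal r) = 0 := by simp [ofReal, c5]
lemma add_c6 (x y : Oct) : c6 (x + y) = c6 x + c6 y := rfl
lemma sub_c6 (x y : Oct) : c6 (x - y) = c6 x - c6 y := rfl
lemma neg_c6 (x : Oct) : c6 (-x) = -c6 x := rfl
lemma zero_c6 : c6 0 = 0 := rfl
lemma smul_c6 (r : ℝ) (x : Oct) : c6 (r • x) = r * c6 x := rfl
lemma ofReal_c6 (r : ℝ) : c6 (ofReal r) = 0 := by simp [ofReal, c6]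
lemma add_c7 (x y : Oct) : c7 (x + y) = c7 x + c7 y := rfl
lemma sub_c7 (x y : Oct) : c7 (x - y) = c7 x - c7 y := rfl
lemma neg_c7 (x : Oct) : c7 (-x) = -c7 x := rfl
lemma zero_c7 : c7 0 = 0 := rfl
lemma smul_c7 (r : ℝ) (x : Oct) : c7 (r • x) = r * c7 x := rfl
lemma ofReal_c7 (r : ℝ) : c7 (ofReal r) = 0 := by simp [ofReal, c7]

lemma re_eq (x : Oct) : re x = c0 x := rfl

lemma mul_add (x y z : Oct) : mul x (y + z) = mul x y + mul x z := by
  apply ext' <;> simp only [mul_c0, mul_c1, mul_c2, mul_c3, mul_c4, mul_c5, mul_c6, mul_c7, add_c0, add_c1, add_c2, add_c3, add_c4, add_c5, add_c6, add_c7] <;> ring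

lemma add_mul (x y z : Oct) : mul (x + y) z = mul x z + mul y z := by
  apply ext' <;> simp only [mul_c0, mul_c1, mul_c2, mul_c3, mul_c4, mul_c5, mul_c6, mul_c7, add_c0, add_c1, add_c2, add_c3, add_c4, add_c5, add_c6, add_c7] <;> ring

lemma smul_mul (r : ℝ) (x y : Oct) : mul (r • x) y = r • mul x y := by
  apply ext' <;> simp only [mul_c0, mul_c1, mul_c2, mul_c3, mul_c4, mul_c5, mul_c6, mul_c7, smul_c0, smul_c1, smul_c2, smul_c3, smul_c4, smul_c5, smul_c6, smul_c7] <;> ring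

lemma mul_smul (r : ℝ) (x y : Oct) : mul x (r • y) = r • mul x y := by
  apply ext' <;> simp only [mul_c0, mul_c1, mul_c2, mul_c3, mul_c4, mul_c5, mul_c6, mul_c7, smul_c0, smul_c1, smul_c2, smul_c3, smul_c4, smul_c5, smul_c6, smul_c7] <;> ring

lemma ofReal_mul (r : ℝ) (x : Oct) : mul (ofReal r) x = r • x := by
  apply ext' <;> simp only [mul_c0, mul_c1, mul_c2, mul_c3, mul_c4, mul_c5, mul_c6, mul_c7, smul_c0, smul_c1, smul_c2, smul_c3, smul_c4, smul_c5, smul_c6, smul_c7, ofReal_c0, ofReal_c1, ofReal_c2, ofReal_c3, ofReal_c4, ofReal_c5, ofReal_c6, ofReal_c7] <;> ring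

lemma mul_ofReal (r : ℝ) (x : Oct) : mul x (ofReal r) = r • x := by
  apply ext' <;> simp only [mul_c0, mul_c1, mul_c2, mul_c3, mul_c4, mul_c5, mul_c6, mul_c7, smul_c0, smul_c1, smul_c2, smul_c3, smul_c4, smul_c5, smul_c6, smul_c7, ofReal_c0, ofReal_c1, ofReal_c2, ofReal_c3, ofReal_c4, ofReal_c5, ofReal_c6, ofReal_c7] <;> ring

lemma conj_mul (x y : Oct) : conj (mul x y) = mul (conj y) (conj x) := by
  apply ext' <;> simp only [mul_c0, mul_c1, mul_c2, mul_c3, mul_c4, mul_c5, mul_c6, mul_c7, conj_c0, conj_c1, conj_c2, conj_c3, conj_c4, conj_c5, conj_c6, conj_c7] <;> ring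

lemma conj_conj (x : Oct) : conj (conj x) = x := by
  apply ext' <;> simp only [conj_c0, conj_c1, conj_c2, conj_c3, conj_c4, conj_c5, conj_c6, conj_c7, neg_neg]

lemma conj_add (x y : Oct) : conj (x + y) = conj x + conj y := by
  apply ext' <;> simp only [conj_c0, conj_c1, conj_c2, conj_c3, conj_c4, conj_c5, conj_c6, conj_c7, add_c0, add_c1, add_c2, add_c3, add_c4, add_c5, add_c6, add_c7] <;> ring

lemma conj_smul (r : ℝ) (x : Oct) : conj (r • x) = r • conj x := by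
  apply ext' <;> simp only [conj_c0, conj_c1, conj_c2, conj_c3, conj_c4, conj_c5, conj_c6, conj_c7, smul_c0, smul_c1, smul_c2, smul_c3, smul_c4, smul_c5, smul_c6, smul_c7] <;> ring

lemma re_conj (x : Oct) : re (conj x) = re x := conj_c0 x

lemma re_mul_comm (x y : Oct) : re (mul x y) = re (mul y x) := by
  simp only [re_eq, mul_c0]; ring

lemma re_mul_assoc (x y z : Oct) : re (mul (mul x y) z) = re (mul x (mul y z)) := by
  simp only [re_eq, mul_c0, mul_c1, mul_c2, mul_c3, mul_c4, mul_c5, mul_c6, mul_c7]; ring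

lemma re_mul_conj (x y : Oct) : re (mul x (conj y)) = ip x y := by
  simp only [re_eq, mul_c0, conj_c0, conj_c1, conj_c2, conj_c3, conj_c4, conj_c5, conj_c6, conj_c7, ip]; ring

lemma ip_conj (x y : Oct) : ip (conj x) (conj y) = ip x y := by
  simp only [conj_c0, conj_c1, conj_c2, conj_c3, conj_c4, conj_c5, conj_c6, conj_c7, ip]; ring

lemma ip_comm (x y : Oct) : ip x y = ip y x := by
  simp only [ip]; ring

lemma ip_add_left (x y z : Oct) : ip (x + y) z = ip x z + ip y z := by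
  simp only [add_c0, add_c1, add_c2, add_c3, add_c4, add_c5, add_c6, add_c7, ip]; ring

lemma ip_smul_left (r : ℝ) (x y : Oct) : ip (r • x) y = r * ip x y := by
  simp only [smul_c0, smul_c1, smul_c2, smul_c3, smul_c4, smul_c5, smul_c6, smul_c7, ip]; ring

lemma ip_mul_left (a x y : Oct) : ip (mul a x) y = ip x (mul (conj a) y) := by
  simp only [mul_c0, mul_c1, mul_c2, mul_c3, mul_c4, mul_c5, mul_c6, mul_c7, conj_c0, conj_c1, conj_c2, conj_c3, conj_c4, conj_c5, conj_c6, conj_c7, ip]; ring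

lemma ip_mul_mul_left (a x y : Oct) : ip (mul a x) (mul a y) = nsq a * ip x y := by
  simp only [mul_c0, mul_c1, mul_c2, mul_c3, mul_c4, mul_c5, mul_c6, mul_c7, ip, nsq]; ring

lemma ip_mul_mul_right (a x y : Oct) : ip (mul x a) (mul y a) = nsq a * ip x y := by
  simp only [mul_c0, mul_c1, mul_c2, mul_c3, mul_c4, mul_c5, mul_c6, mul_c7, ip, nsq]; ring

lemma nsq_mul (x y : Oct) : nsq (mul x y) = nsq x * nsq y := by
  simp only [mul_c0, mul_c1, mul_c2, mul_c3, mul_c4, mul_c5, mul_c6, mul_c7, ip, nsq]; ring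

lemma nsq_conj (x : Oct) : nsq (conj x) = nsq x := ip_conj x x

lemma conj_mul_mul (a x : Oct) : mul (conj a) (mul a x) = nsq a • x := by
  apply ext' <;> simp only [mul_c0, mul_c1, mul_c2, mul_c3, mul_c4, mul_c5, mul_c6, mul_c7, conj_c0, conj_c1, conj_c2, conj_c3, conj_c4, conj_c5, conj_c6, conj_c7, smul_c0, smul_c1, smul_c2, smul_c3, smul_c4, smul_c5, smul_c6, smul_c7, ip, nsq] <;> ring

/-- Moufang identity. -/
lemma moufang1 (u x y : Oct) : mul (mul u x) (mul y u) = mul (mul u (mul x y)) u := by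
  apply ext' <;> simp only [mul_c0, mul_c1, mul_c2, mul_c3, mul_c4, mul_c5, mul_c6, mul_c7] <;> ring

lemma moufang2 (u x y : Oct) :
    mul (mul x u) (mul (mul (conj u) y) (conj u)) = nsq u • mul (mul x y) (conj u) := by
  apply ext' <;> simp only [mul_c0, mul_c1, mul_c2, mul_c3, mul_c4, mul_c5, mul_c6, mul_c7, conj_c0, conj_c1, conj_c2, conj_c3, conj_c4, conj_c5, conj_c6, conj_c7, smul_c0, smul_c1, smul_c2, smul_c3, smul_c4, smul_c5, smul_c6, smul_c7, ip, nsq] <;> ring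

lemma moufang3 (u x y : Oct) :
    mul (mul (mul (conj u) x) (conj u)) (mul u y) = nsq u • mul (conj u) (mul x y) := by
  apply ext' <;> simp only [mul_c0, mul_c1, mul_c2, mul_c3, mul_c4, mul_c5, mul_c6, mul_c7, conj_c0, conj_c1, conj_c2, conj_c3, conj_c4, conj_c5, conj_c6, conj_c7, smul_c0, smul_c1, smul_c2, smul_c3, smul_c4, smul_c5, smul_c6, smul_c7, ip, nsq] <;> ring

lemma flex (u x : Oct) : mul (mul u x) u = mul u (mul x u) := by
  apply ext' <;> simp only [mul_c0, mul_c1, mul_c2, mul_c3, mul_c4, mul_c5, mul_c6, mul_c7] <;> ring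

end Oct

end Pool.Agent.Lib.MP_de6bc3_an
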