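import Pool.Agent.Lib.MP_de6bc3_an.Conv

set_option autoImplicit false

open scoped Quaternion

namespace Pool.Agent.Lib.MP_de6bc3_an

open Oct Filter Topology

lemma eig_nonneg (a b : Alb) (T : Alb →ₗ[ℝ] Alb) (hT : IsAut T) (l : Fin 3 → ℝ)
    (h : jmul a a + jmul b b = T (dg l)) (i : Fin 3) : 0 ≤ l i := by
  obtain ⟨R, hR, hRT, _⟩ := hT.exists_inv
  have g : jmul (R a) (R a) + jmul (R b) (R b) = dg l := by
    have := congrArg R h
    rw [hRT, map_add, hR.1, hR.1] at this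
    exact this
  have g2 : re ((jmul (R a) (R a)).1 i i) + re ((jmul (R b) (R b)).1 i i) = l i := by
    have h3 : re ((jmul (R a) (R a) + jmul (R b) (R b)).1 i i) = l i := by
      rw [g, dg_apply, if_pos rfl, re_ofReal]
    rw [add_apply', re_add] at h3
    exact h3
  rw [← g2, re_jmul_diag, re_jmul_diag]
  exact add_nonneg (Finset.sum_nonneg fun k _ => nsq_nonneg _)
    (Finset.sum_nonneg fun k _ => nsq_nonneg _)

lemma dg_add_const (l : Fin 3 → ℝ) (ε : ℝ) : dg (fun i => l i + ε) = dg l + ε • one := by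
  rw [one, dg_eq_sum, dg_eq_sum l, dg_eq_sum (fun _ => (1 : ℝ))]
  module

lemma dg_smul (l : Fin 3 → ℝ) (c : ℝ) : dg (fun i => c * l i) = c • dg l := by
  rw [dg_eq_sum, dg_eq_sum l]
  module

/-- Convexity of `(a, b) ↦ tr((a² + b²)^s)` for `s ≥ 1/2`. -/
lemma convex0 (s : ℝ) (hs : 1 / 2 ≤ s) (a₁ b₁ a₂ b₂ : Alb) (t : ℝ)
    (ht0 : 0 ≤ t) (ht1 : t ≤ 1) (T T₁ T₂ : Alb →ₗ[ℝ] Alb) (hT : IsAut T) (hT₁ : IsAut T₁)
    (hT₂ : IsAut T₂) (l l₁ l₂ : Fin 3 → ℝ)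
    (h : jmul (t • a₁ + (1 - t) • a₂) (t • a₁ + (1 - t) • a₂)
      + jmul (t • b₁ + (1 - t) • b₂) (t • b₁ + (1 - t) • b₂) = T (dg l))
    (h₁ : jmul a₁ a₁ + jmul b₁ b₁ = T₁ (dg l₁))
    (h₂ : jmul a₂ a₂ + jmul b₂ b₂ = T₂ (dg l₂)) :
    ∑ i, l i ^ s ≤ t * ∑ i, l₁ i ^ s + (1 - t) * ∑ i, l₂ i ^ s := by
  have hs0 : 0 < s := by linarith
  have hl := eig_nonneg _ _ T hT l h
  have hl₁ := eig_nonneg _ _ T₁ hT₁ l₁ h₁
  have hl₂ := eig_nonneg _ _ T₂ hT₂ l₂ h₂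
  have hε : ∀ ε : ℝ, 0 < ε → ∑ i, (l i + ε) ^ s
      ≤ t * ∑ i, (l₁ i + ε) ^ s + (1 - t) * ∑ i, (l₂ i + ε) ^ s := by
    intro ε hε
    refine convex_eps s hs ε hε a₁ b₁ a₂ b₂ t ht0 ht1 T T₁ T₂ hT hT₁ hT₂ (fun i => l i + ε)
      (fun i => l₁ i + ε) (fun i => l₂ i + ε) (fun i => by have := hl i; linarith)
      (fun i => by have := hl₁ i; linarith) (fun i => by have := hl₂ i; linarith) ?_ ?_ ?_
    · rw [h, dg_add_const, map_add, map_smul, hT.2]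
    · rw [h₁, dg_add_const, map_add, map_smul, hT₁.2]
    · rw [h₂, dg_add_const, map_add, map_smul, hT₂.2]
  have hlim : ∀ m : Fin 3 → ℝ, Tendsto (fun ε : ℝ => ∑ i, (m i + ε) ^ s) (𝓝[>] 0)
      (𝓝 (∑ i, m i ^ s)) := by
    intro m
    refine tendsto_finset_sum _ fun i _ => ?_
    have hc : ContinuousAt (fun ε : ℝ => (m i + ε) ^ s) 0 := by
      refine ContinuousAt.rpow_const (by fun_prop) (Or.inr hs0.le)
    have := hc.tendsto
    simp only [add_zero] at this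
    exact this.mono_left nhdsWithin_le_nhds
  refine le_of_tendsto_of_tendsto (hlim l)
    (((hlim l₁).const_mul t).add ((hlim l₂).const_mul (1 - t))) ?_
  filter_upwards [self_mem_nhdsWithin] with ε hε'
  exact hε ε hε'

lemma smul_sq (c : ℝ) (a b : Alb) : jmul (c • a) (c • a) + jmul (c • b) (c • b)
    = (c * c) • (jmul a a + jmul b b) := by
  rw [smul_jmul, jmul_smul, smul_jmul, jmul_smul, smul_smul, smul_smul, smul_add]

lemma sum_rpow_smul (c s : ℝ) (hc : 0 < c) (l : Fin 3 → ℝ) (hl : ∀ i, 0 ≤ l i) :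
    ∑ i, ((c * c) * l i) ^ s = c ^ (2 * s) * ∑ i, l i ^ s := by
  rw [Finset.mul_sum]
  refine Finset.sum_congr rfl fun i _ => ?_
  rw [Real.mul_rpow (by positivity) (hl i), two_mul, Real.rpow_add hc, Real.mul_rpow hc.le hc.le]

/-- Pointwise form of the triangle inequality. -/
lemma tri_pointwise (s : ℝ) (hs : 1 / 2 ≤ s) (a₁ b₁ a₂ b₂ : Alb) (A B : ℝ) (hA : 0 < A)
    (hB : 0 < B) (T T₁ T₂ : Alb →ₗ[ℝ] Alb) (hT : IsAut T) (hT₁ : IsAut T₁)
    (hT₂ : IsAut T₂) (l l₁ l₂ : Fin 3 → ℝ)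
    (h : jmul (a₁ + a₂) (a₁ + a₂) + jmul (b₁ + b₂) (b₁ + b₂) = T (dg l))
    (h₁ : jmul a₁ a₁ + jmul b₁ b₁ = T₁ (dg l₁))
    (h₂ : jmul a₂ a₂ + jmul b₂ b₂ = T₂ (dg l₂)) :
    ((A + B)⁻¹) ^ (2 * s) * ∑ i, l i ^ s ≤ A / (A + B) * ((A⁻¹) ^ (2 * s) * ∑ i, l₁ i ^ s)
      + B / (A + B) * ((B⁻¹) ^ (2 * s) * ∑ i, l₂ i ^ s) := by
  have hl := eig_nonneg _ _ T hT l h
  have hl₁ := eig_nonneg _ _ T₁ hT₁ l₁ h₁
  have hl₂ := eig_nonneg _ _ T₂ hT₂ l₂ h₂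
  have hAB : 0 < A + B := by positivity
  have ht : 1 - A / (A + B) = B / (A + B) := by field_simp; ring
  have hcomb : ∀ c d : Alb, (A / (A + B)) • (A⁻¹ • c) + (1 - A / (A + B)) • (B⁻¹ • d)
      = (A + B)⁻¹ • (c + d) := by
    intro c d
    rw [ht, smul_smul, smul_smul, smul_add]
    congr 2 <;> field_simp
  rw [← sum_rpow_smul _ s (inv_pos.mpr hAB) l hl, ← sum_rpow_smul _ s (inv_pos.mpr hA) l₁ hl₁,
    ← sum_rpow_smul _ s (inv_pos.mpr hB) l₂ hl₂]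
  have := convex0 s hs (A⁻¹ • a₁) (A⁻¹ • b₁) (B⁻¹ • a₂) (B⁻¹ • b₂) (A / (A + B))
    (by positivity) ((div_le_one hAB).mpr (by linarith)) T T₁ T₂ hT hT₁ hT₂
    (fun i => (A + B)⁻¹ * (A + B)⁻¹ * l i) (fun i => A⁻¹ * A⁻¹ * l₁ i)
    (fun i => B⁻¹ * B⁻¹ * l₂ i) (by rw [hcomb, hcomb, smul_sq, h, dg_smul, map_smul])
    (by rw [smul_sq, h₁, dg_smul, map_smul]) (by rw [smul_sq, h₂, dg_smul, map_smul])
  rw [ht] at this
  exact this

/-! ### Functional calculus -/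

/-- `q` is a complete system of orthogonal idempotents. -/
def IsFrame (q : Fin 3 → Alb) : Prop :=
  (∀ i j, jmul (q i) (q j) = if i = j then q i else 0) ∧ ∑ i, q i = one

lemma isFrame_aut (T : Alb →ₗ[ℝ] Alb) (hT : IsAut T) : IsFrame fun i => T (e i) := by
  refine ⟨fun i j => ?_, ?_⟩
  · rw [← hT.1]
    split_ifs with h
    · subst h; rw [e_jmul_e]
    · rw [e_jmul_e_ne i j h, map_zero]
  · rw [Fin.sum_univ_three, ← map_add, ← map_add, ← one_eq_sum, hT.2]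

lemma aut_dg (T : Alb →ₗ[ℝ] Alb) (l : Fin 3 → ℝ) : T (dg l) = ∑ i, l i • T (e i) := by
  rw [dg_eq_sum, Fin.sum_univ_three]
  simp only [map_add, map_smul]

/-- natural powers -/
noncomputable def npw (h : Alb) : ℕ → Alb
  | 0 => one
  | n + 1 => jmul h (npw h n)

lemma jmul_frame {q : Fin 3 → Alb} (hq : IsFrame q) (l m : Fin 3 → ℝ) :
    jmul (∑ i, l i • q i) (∑ i, m i • q i) = ∑ i, (l i * m i) • q i := by
  have h1 : jmul (∑ i, l i • q i) (∑ i, m i • q i)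
      = ∑ i, ∑ j, (l i * m j) • jmul (q i) (q j) := by
    have := LinearMap.map_sum₂ jmulL Finset.univ (fun i => l i • q i) (∑ i, m i • q i)
    rw [← jmulL_apply, this]
    refine Finset.sum_congr rfl fun i _ => ?_
    rw [map_sum]
    refine Finset.sum_congr rfl fun j _ => ?_
    rw [jmulL_apply, smul_jmul, jmul_smul, smul_smul]
  rw [h1]
  refine Finset.sum_congr rfl fun i _ => ?_
  rw [Finset.sum_eq_single i]
  · rw [hq.1, if_pos rfl]
  · intro j _ hj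
    rw [hq.1, if_neg (Ne.symm hj), smul_zero]
  · simp

lemma npw_frame {q : Fin 3 → Alb} (hq : IsFrame q) (l : Fin 3 → ℝ) (n : ℕ) :
    npw (∑ i, l i • q i) n = ∑ i, (l i ^ n) • q i := by
  induction n with
  | zero => simp [npw, hq.2]
  | succ n ih =>
    rw [npw, ih, jmul_frame hq]
    refine Finset.sum_congr rfl fun i _ => ?_
    rw [pow_succ']

/-- polynomial functional calculus -/
noncomputable def pev (P : Polynomial ℝ) (h : Alb) : Alb := P.sum fun n c => c • npw h n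

lemma pev_frame {q : Fin 3 → Alb} (hq : IsFrame q) (l : Fin 3 → ℝ) (P : Polynomial ℝ) :
    pev P (∑ i, l i • q i) = ∑ i, (P.eval (l i)) • q i := by
  unfold pev
  simp only [npw_frame hq, Polynomial.sum_def, Polynomial.eval_eq_sum, Finset.smul_sum,
    smul_smul, Finset.sum_smul]
  rw [Finset.sum_comm]

/-- `k` is the `s`-th power of the positive element `h`. -/
def IsPow (s : ℝ) (h k : Alb) : Prop := ∃ (q : Fin 3 → Alb) (l : Fin 3 → ℝ), IsFrame q ∧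
  (∀ i, 0 ≤ l i) ∧ h = ∑ i, l i • q i ∧ k = ∑ i, (l i ^ s) • q i

lemma IsPow.unique {s : ℝ} {h k k' : Alb} (h1 : IsPow s h k) (h2 : IsPow s h k') : k = k' := by
  obtain ⟨q, l, hq, _, hl2, hk⟩ := h1
  obtain ⟨q', l', hq', _, hl2', hk'⟩ := h2
  classical
  set S : Finset ℝ := Finset.univ.image l ∪ Finset.univ.image l' with hS
  set P : Polynomial ℝ := Lagrange.interpolate S id (fun x => x ^ s) with hP
  have hev : ∀ x ∈ S, P.eval x = x ^ s := by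
    intro x hx
    have := Lagrange.eval_interpolate_at_node (s := S) (v := id) (fun x => x ^ s)
      (Function.injective_id.injOn) hx
    exact this
  have e1 : pev P h = k := by
    rw [hl2, pev_frame hq, hk]
    refine Finset.sum_congr rfl fun i _ => ?_
    rw [hev (l i) (by rw [hS]; simp)]
  have e2 : pev P h = k' := by
    rw [hl2', pev_frame hq', hk']
    refine Finset.sum_congr rfl fun i _ => ?_
    rw [hev (l' i) (by rw [hS]; simp)]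
  rw [← e1, e2]

lemma isPow_aut (s : ℝ) (T : Alb →ₗ[ℝ] Alb) (hT : IsAut T) (l : Fin 3 → ℝ) (hl : ∀ i, 0 ≤ l i) :
    IsPow s (T (dg l)) (T (dg fun i => l i ^ s)) :=
  ⟨fun i => T (e i), l, isFrame_aut T hT, hl, aut_dg T l, aut_dg T _⟩

lemma IsPow.eq_aut {s : ℝ} {k : Alb} {T : Alb →ₗ[ℝ] Alb} (hT : IsAut T) {l : Fin 3 → ℝ}
    (hl : ∀ i, 0 ≤ l i) (h : IsPow s (T (dg l)) k) : k = T (dg fun i => l i ^ s) :=
  h.unique (isPow_aut s T hT l hl)

/-- Every element of the form `a² + b²` has a spectral resolution with nonnegative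
coefficients. -/
lemma exists_diag_sq (a b : Alb) : ∃ T : Alb →ₗ[ℝ] Alb, IsAut T ∧ ∃ l : Fin 3 → ℝ,
    (∀ i, 0 ≤ l i) ∧ jmul a a + jmul b b = T (dg l) := by
  obtain ⟨T, hT, l, h⟩ := exists_diag (jmul a a + jmul b b)
  exact ⟨T, hT, l, eig_nonneg a b T hT l h, h⟩

lemma exists_isPow (s : ℝ) (a b : Alb) : ∃ k, IsPow s (jmul a a + jmul b b) k := by
  obtain ⟨T, hT, l, hl, h⟩ := exists_diag_sq a b
  rw [h]
  exact ⟨_, isPow_aut s T hT l hl⟩

/-- The trace inequality for powers. -/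
lemma tri_isPow (p : ℝ) (hp : 1 ≤ p) (a₁ b₁ a₂ b₂ k k₁ k₂ : Alb) (A B : ℝ) (hA : 0 < A)
    (hB : 0 < B) (h : IsPow (p / 2) (jmul (a₁ + a₂) (a₁ + a₂) + jmul (b₁ + b₂) (b₁ + b₂)) k)
    (h₁ : IsPow (p / 2) (jmul a₁ a₁ + jmul b₁ b₁) k₁)
    (h₂ : IsPow (p / 2) (jmul a₂ a₂ + jmul b₂ b₂) k₂) :
    ((A + B)⁻¹) ^ p * tr k ≤ A / (A + B) * ((A⁻¹) ^ p * tr k₁)
      + B / (A + B) * ((B⁻¹) ^ p * tr k₂) := by
  obtain ⟨T, hT, l, hl, e⟩ := exists_diag_sq (a₁ + a₂) (b₁ + b₂)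
  obtain ⟨T₁, hT₁, l₁, hl₁, e₁⟩ := exists_diag_sq a₁ b₁
  obtain ⟨T₂, hT₂, l₂, hl₂, e₂⟩ := exists_diag_sq a₂ b₂
  have := tri_pointwise (p / 2) (by linarith) a₁ b₁ a₂ b₂ A B hA hB T T₁ T₂ hT hT₁ hT₂ l l₁ l₂
    e e₁ e₂
  rw [e] at h
  rw [e₁] at h₁
  rw [e₂] at h₂
  rw [h.eq_aut hT hl, h₁.eq_aut hT₁ hl₁, h₂.eq_aut hT₂ hl₂, hT.tr, hT₁.tr, hT₂.tr, tr_dg, tr_dg,
    tr_dg]
  rw [show 2 * (p / 2) = p by ring] at this
  exact this

lemma tr_nonneg_of_isPow {s : ℝ} {h k : Alb} (hk : IsPow s h k) : 0 ≤ tr k := by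
  obtain ⟨q, l, hq, hl, _, rfl⟩ := hk
  have h1 : tr (∑ i, (l i ^ s) • q i) = ∑ i, l i ^ s * tr (q i) := by
    have := map_sum trL (fun i => (l i ^ s) • q i) Finset.univ
    refine this.trans (Finset.sum_congr rfl fun i _ => ?_)
    exact tr_smul _ _
  rw [h1]
  refine Finset.sum_nonneg fun i _ => mul_nonneg (Real.rpow_nonneg (hl i) _) ?_
  have := hq.1 i i
  rw [if_pos rfl] at this
  rw [← this]
  exact tr_jmul_self_nonneg _

lemma norm_frame_le {q : Fin 3 → Alb} (hq : IsFrame q) (i : Fin 3) : ‖q i‖ ≤ 2 := by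
  have h1 := norm_sq_le (q i)
  have h2 : ∀ j, jmul (q j) (q j) = q j := fun j => by
    have := hq.1 j j
    rwa [if_pos rfl] at this
  have h3 : ∀ j, 0 ≤ tr (q j) := fun j => by
    rw [← h2 j]; exact tr_jmul_self_nonneg _
  have h4 : ∑ j, tr (q j) = 3 := by
    have := map_sum trL q Finset.univ
    have h5 : trL (∑ j, q j) = 3 := by rw [hq.2]; exact tr_one
    rw [this] at h5
    exact h5
  have h5 : tr (q i) ≤ 3 := by
    rw [← h4]
    exact Finset.single_le_sum (f := fun j => tr (q j)) (fun j _ => h3 j) (Finset.mem_univ i)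
  rw [h2 i] at h1
  nlinarith [norm_nonneg (q i)]

end Pool.Agent.Lib.MP_de6bc3_an
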